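import Mathlib

/-!
# `p`-integral rational numbers and congruences modulo powers of `p`
-/

namespace Pool.Agent.V11304.SC

open Finset

variable (p : ℕ) [hp : Fact p.Prime]

/-- The ring of rational numbers whose denominator is prime to `p`. -/
def Z : Subring ℚ where
  carrier := {x | ¬ p ∣ x.den}
  mul_mem' := by
    intro a b ha hb h
    have := (h.trans (Rat.mul_den_dvd a b))
    rcases (hp.out.dvd_mul).1 this with h | h
    · exact ha h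
    · exact hb h
  one_mem' := by
    show ¬ p ∣ (1:ℚ).den
    simpa using hp.out.one_lt.ne'
  add_mem' := by
    intro a b ha hb h
    have := (h.trans (Rat.add_den_dvd a b))
    rcases (hp.out.dvd_mul).1 this with h | h
    · exact ha h
    · exact hb h
  zero_mem' := by
    show ¬ p ∣ (0:ℚ).den
    simpa using hp.out.one_lt.ne'
  neg_mem' := by
    intro a ha
    show ¬ p ∣ (-a).den
    rw [Rat.neg_den]
    exact ha

/-- The multiples of `p^m` in `Z p`. -/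
def J (m : ℕ) : AddSubgroup ℚ where
  carrier := {x | ∃ z ∈ Z p, x = (p:ℚ)^m * z}
  add_mem' := by
    rintro _ _ ⟨z, hz, rfl⟩ ⟨w, hw, rfl⟩
    exact ⟨z + w, add_mem hz hw, by ring⟩
  zero_mem' := ⟨0, zero_mem _, by ring⟩
  neg_mem' := by
    rintro _ ⟨z, hz, rfl⟩
    exact ⟨-z, neg_mem hz, by ring⟩

variable {p}

lemma mem_J {m : ℕ} {x : ℚ} : x ∈ J p m ↔ ∃ z ∈ Z p, x = (p:ℚ)^m * z := Iff.rfl

lemma mem_Z {x : ℚ} : x ∈ Z p ↔ ¬ p ∣ x.den := Iff.rfl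

lemma nat_mem (k : ℕ) : (k:ℚ) ∈ Z p := natCast_mem _ k

lemma int_mem (k : ℤ) : (k:ℚ) ∈ Z p := intCast_mem _ k

lemma inv_mem {b : ℕ} (h : ¬ p ∣ b) : ((b:ℚ))⁻¹ ∈ Z p := by
  rw [mem_Z]
  rcases Nat.eq_zero_or_pos b with rfl | hb
  · simp at h
  · rw [Rat.inv_natCast_den_of_pos hb]
    exact h

lemma J_zero {x : ℚ} : x ∈ J p 0 ↔ x ∈ Z p := by
  rw [mem_J]
  constructor
  · rintro ⟨z, hz, rfl⟩
    simpa using hz
  · intro h
    exact ⟨x, h, by simp⟩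

lemma J_mul {m k : ℕ} {x y : ℚ} (hx : x ∈ J p m) (hy : y ∈ J p k) : x * y ∈ J p (m + k) := by
  obtain ⟨z, hz, rfl⟩ := hx
  obtain ⟨w, hw, rfl⟩ := hy
  exact ⟨z * w, mul_mem hz hw, by rw [pow_add]; ring⟩

lemma J_anti {m k : ℕ} (h : m ≤ k) {x : ℚ} (hx : x ∈ J p k) : x ∈ J p m := by
  obtain ⟨z, hz, rfl⟩ := hx
  obtain ⟨d, rfl⟩ := Nat.exists_eq_add_of_le h
  exact ⟨(p:ℚ)^d * z, mul_mem (pow_mem (nat_mem p) d) hz, by rw [pow_add]; ring⟩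

lemma J_Z {m : ℕ} {x : ℚ} (hx : x ∈ J p m) : x ∈ Z p := J_zero.1 (J_anti (Nat.zero_le m) hx)

lemma Z_mul_J {m : ℕ} {z x : ℚ} (hz : z ∈ Z p) (hx : x ∈ J p m) : z * x ∈ J p m := by
  have := J_mul (J_zero.2 hz) hx
  rwa [zero_add] at this

lemma J_mul_Z {m : ℕ} {z x : ℚ} (hz : z ∈ Z p) (hx : x ∈ J p m) : x * z ∈ J p m := by
  rw [mul_comm]; exact Z_mul_J hz hx

lemma ppow_mem (m : ℕ) {z : ℚ} (hz : z ∈ Z p) : (p:ℚ)^m * z ∈ J p m := ⟨z, hz, rfl⟩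

lemma p_mem : (p:ℚ) ∈ J p 1 := ⟨1, one_mem _, by simp⟩

lemma J_cancel {m k : ℕ} {x : ℚ} (h : (p:ℚ)^k * x ∈ J p (m + k)) : x ∈ J p m := by
  obtain ⟨z, hz, h⟩ := h
  refine ⟨z, hz, ?_⟩
  have hp0 : ((p:ℚ))^k ≠ 0 := pow_ne_zero _ (by exact_mod_cast hp.out.ne_zero)
  apply mul_left_cancel₀ hp0
  rw [h, pow_add]; ring

/-- cancel a unit -/
lemma J_unit {m b : ℕ} {x : ℚ} (hb : ¬ p ∣ b) (h : (b:ℚ) * x ∈ J p m) : x ∈ J p m := by
  have h2 := Z_mul_J (inv_mem hb) h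
  have hb0 : (b:ℚ) ≠ 0 := by
    rintro h0
    apply hb
    have : b = 0 := by exact_mod_cast h0
    simp [this]
  rwa [← mul_assoc, inv_mul_cancel₀ hb0, one_mul] at h2

lemma cong_mul {m : ℕ} {x x' y y' : ℚ} (h1 : x - x' ∈ J p m) (h2 : y - y' ∈ J p m)
    (hx : x ∈ Z p) (hy : y' ∈ Z p) : x * y - x' * y' ∈ J p m := by
  have e : x * y - x' * y' = x * (y - y') + (x - x') * y' := by ring
  rw [e]
  exact add_mem (Z_mul_J hx h2) (J_mul_Z hy h1)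

lemma cong_trans {m : ℕ} {x y z : ℚ} (h1 : x - y ∈ J p m) (h2 : y - z ∈ J p m) :
    x - z ∈ J p m := by
  have := add_mem h1 h2
  rwa [sub_add_sub_cancel] at this

lemma cong_Z {m : ℕ} {x y : ℚ} (h1 : x - y ∈ J p m) (hy : y ∈ Z p) : x ∈ Z p := by
  have := add_mem (J_Z h1) hy
  rwa [sub_add_cancel] at this

lemma cong_pow3 {m : ℕ} {x y : ℚ} (h : x - y ∈ J p m) (hx : x ∈ Z p) (hy : y ∈ Z p) :
    x^3 - y^3 ∈ J p m := by
  have e : x^3 - y^3 = (x^2 + x*y + y^2) * (x - y) := by ring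
  rw [e]
  exact Z_mul_J (add_mem (add_mem (pow_mem hx 2) (mul_mem hx hy)) (pow_mem hy 2)) h

lemma J_iff_of_cong {m : ℕ} {x y : ℚ} (h : x - y ∈ J p m) (hy : y ∈ J p m) : x ∈ J p m := by
  have := add_mem h hy
  rwa [sub_add_cancel] at this

lemma J_num {m : ℕ} {x : ℚ} (h : x ∈ J p m) : ((p:ℤ))^m ∣ x.num := by
  obtain ⟨z, hz, hx⟩ := h
  have h1 : (x.num : ℚ) * z.den = (p:ℚ)^m * z.num * x.den := by
    have e1 : x * x.den = x.num := Rat.mul_den_eq_num x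
    have e2 : z * z.den = z.num := Rat.mul_den_eq_num z
    rw [← e1, ← e2, hx]; ring
  have h2 : x.num * z.den = (p:ℤ)^m * z.num * x.den := by exact_mod_cast h1
  have h3 : ((p:ℤ))^m ∣ x.num * z.den := ⟨z.num * x.den, by rw [h2]; ring⟩
  have hcop : IsCoprime ((p:ℤ)^m) (z.den : ℤ) := by
    apply IsCoprime.pow_left
    rw [Nat.isCoprime_iff_coprime]
    exact (Nat.Prime.coprime_iff_not_dvd hp.out).2 hz
  exact hcop.dvd_of_dvd_mul_right h3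

end Pool.Agent.V11304.SC
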