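import Pool.Agent.V11304.SC.Seq

/-!
# Blocks of length `p` of the sequence `c`
-/

namespace Pool.Agent.V11304.SC

open Finset

variable {p n : ℕ} [hp : Fact p.Prime]

/-- inverse of `2 p b + 2 t + 2` -/
lemma invb_mem (hpn : p = 2*n+1) (b : ℕ) {t : ℕ} (h : ¬ p ∣ (2*t+2)) :
    ((2*((p*b : ℕ):ℚ)+2*t+2))⁻¹ ∈ Z p := by
  have h1 : ¬ p ∣ p * (2*b) + (2*t+2) := add_ndvd h
  have := inv_mem h1
  push_cast at this
  push_cast
  have e : (2*((p:ℚ)*b)+2*t+2) = ((p:ℚ) * (2*b) + (2*t+2)) := by ring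
  rw [e]; exact this

lemma numb_mem (b t : ℕ) : (2*((p*b : ℕ):ℚ)+2*t+1) ∈ Z p := by
  have := nat_mem (p := p) (2*(p*b)+2*t+1)
  push_cast at this
  push_cast
  exact this

lemma g_mem (hpn : p = 2*n+1) (b : ℕ) {t : ℕ} (h : ¬ p ∣ (2*t+2)) :
    g ((p*b : ℕ):ℚ) t ∈ Z p := by
  unfold g
  rw [div_eq_mul_inv]
  exact mul_mem (numb_mem b t) (invb_mem hpn b h)

lemma L_succ (a : ℕ) : L (a+1) = L a + (((2*(a:ℚ)+1))⁻¹ - ((2*(a:ℚ)+2))⁻¹) := by
  unfold L; rw [sum_range_succ]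

lemma L_mem (hpn : p = 2*n+1) {a : ℕ} (ha : a ≤ n) : L a ∈ Z p := by
  unfold L
  apply sum_mem
  intro k hk
  have hk := mem_range.1 hk
  exact sub_mem (inv1_mem hpn (by omega)) (inv2_mem hpn (by omega))

lemma rho_mem_small (hpn : p = 2*n+1) (b : ℕ) {a : ℕ} (ha : a ≤ n) :
    rho ((p*b : ℕ):ℚ) a ∈ Z p := by
  unfold rho
  apply prod_mem
  intro t ht
  have ht := mem_range.1 ht
  exact pow_mem (g_mem hpn b (lt_ndvd (by omega) (by omega))) 3

lemma rho_small (hpn : p = 2*n+1) (b : ℕ) {a : ℕ} (ha : a ≤ n) :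
    rho ((p*b : ℕ):ℚ) a - c a * (1 + (p:ℚ) * (6 * b * L a)) ∈ J p 2 := by
  induction a with
  | zero =>
    have : rho ((p*b : ℕ):ℚ) 0 - c 0 * (1 + (p:ℚ) * (6 * b * L 0)) = 0 := by simp [rho, c, L]
    rw [this]; exact zero_mem _
  | succ a ih =>
    have ih := ih (by omega)
    have hi2 := inv2_mem hpn (a := a) (by omega)
    have hi1 := inv1_mem hpn (a := a) (by omega)
    have hib := invb_mem hpn b (t := a) (lt_ndvd (by omega) (by omega))
    have hg := g_mem hpn b (t := a) (lt_ndvd (by omega) (by omega))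
    have h1 : (2*(a:ℚ)+1) ∈ Z p := nat21_mem a
    have hb : (b:ℚ) ∈ Z p := nat_mem b
    have hpZ : (p:ℚ) ∈ Z p := nat_mem p
    have h2m : (2:ℚ) ∈ Z p := by exact_mod_cast nat_mem (p := p) 2
    have h3m : (3:ℚ) ∈ Z p := by exact_mod_cast nat_mem (p := p) 3
    have h4m : (4:ℚ) ∈ Z p := by exact_mod_cast nat_mem (p := p) 4
    have h6m : (6:ℚ) ∈ Z p := by exact_mod_cast nat_mem (p := p) 6
    have h36m : (36:ℚ) ∈ Z p := by exact_mod_cast nat_mem (p := p) 36
    have hL := L_mem hpn (a := a) (by omega)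
    have hc := c_mem (p := p) hpn a
    have hA0 : (2*(a:ℚ)+1) ≠ 0 := by positivity
    have hB0 : (2*(a:ℚ)+2) ≠ 0 := by positivity
    have ha1 : ((a:ℚ)+1) ≠ 0 := by positivity
    have hC0 : (2*((p*b : ℕ):ℚ)+2*a+2) ≠ 0 := by positivity
    -- abbreviations
    obtain ⟨A, hA⟩ : ∃ A : ℚ, A = 2*(a:ℚ)+1 := ⟨_, rfl⟩
    obtain ⟨B, hB⟩ : ∃ B : ℚ, B = 2*(a:ℚ)+2 := ⟨_, rfl⟩
    obtain ⟨C, hC⟩ : ∃ C : ℚ, C = (2*((p*b : ℕ):ℚ)+2*a+2) := ⟨_, rfl⟩
    have hgC : g ((p*b : ℕ):ℚ) a = (A + 2*p*b) * C⁻¹ := by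
      unfold g; rw [hA, hC, div_eq_mul_inv]; push_cast; ring
    rw [← hA] at hi1 h1 hA0
    rw [← hB] at hi2 hB0
    rw [← hC] at hib hC0
    have hCB : C = B + 2*p*b := by rw [hC, hB]; push_cast; ring
    have hBA : B = A + 1 := by rw [hA, hB]; ring
    -- first order expansion of one factor
    obtain ⟨δ, hδ⟩ : ∃ δ : ℚ, δ = A⁻¹ - B⁻¹ := ⟨_, rfl⟩
    have hδZ : δ ∈ Z p := by rw [hδ]; exact sub_mem hi1 hi2
    have s1 : g ((p*b : ℕ):ℚ) a - (A * B⁻¹) * (1 + p * (2*b*δ)) ∈ J p 2 := by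
      have e : g ((p*b : ℕ):ℚ) a - (A * B⁻¹) * (1 + p * (2*b*δ))
          = (p:ℚ)^2 * (-(4 * b^2 * (B⁻¹)^2 * C⁻¹)) := by
        rw [hgC, hδ]
        rw [hCB] at hC0 ⊢
        rw [hBA] at hC0 hB0 ⊢
        field_simp
        ring
      rw [e]
      apply ppow_mem
      exact neg_mem (mul_mem (mul_mem (mul_mem h4m (pow_mem hb 2)) (pow_mem hi2 2)) hib)
    have s2 : (A * B⁻¹) * (1 + p * (2*b*δ)) ∈ Z p := by
      apply mul_mem (mul_mem h1 hi2)
      exact add_mem (one_mem _) (mul_mem hpZ (mul_mem (mul_mem h2m hb) hδZ))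
    have s3 := cong_pow3 s1 hg s2
    have s4 : ((A * B⁻¹) * (1 + p * (2*b*δ)))^3 - (A * B⁻¹)^3 * (1 + p * (6*b*δ)) ∈ J p 2 := by
      have e : ((A * B⁻¹) * (1 + p * (2*b*δ)))^3 - (A * B⁻¹)^3 * (1 + p * (6*b*δ))
          = (p:ℚ)^2 * ((A * B⁻¹)^3 * (3 * (2*b*δ)^2 + p * (2*b*δ)^3)) := by ring
      rw [e]
      apply ppow_mem
      apply mul_mem (pow_mem (mul_mem h1 hi2) 3)
      exact add_mem (mul_mem h3m (pow_mem (mul_mem (mul_mem h2m hb) hδZ) 2))
        (mul_mem hpZ (pow_mem (mul_mem (mul_mem h2m hb) hδZ) 3))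
    have s5 := cong_trans s3 s4
    have s6 := cong_mul ih s5 (rho_mem_small hpn b (by omega))
      (mul_mem (pow_mem (mul_mem h1 hi2) 3)
        (add_mem (one_mem _) (mul_mem hpZ (mul_mem (mul_mem h6m hb) hδZ))))
    rw [rho_succ, c_succ, L_succ, ← hA, ← hB, ← hδ]
    have s7 : c a * (1 + (p:ℚ) * (6 * b * L a)) * ((A * B⁻¹)^3 * (1 + p * (6*b*δ)))
        - c a * (A / B)^3 * (1 + (p:ℚ) * (6 * b * (L a + δ))) ∈ J p 2 := by
      have e : c a * (1 + (p:ℚ) * (6 * b * L a)) * ((A * B⁻¹)^3 * (1 + p * (6*b*δ)))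
        - c a * (A / B)^3 * (1 + (p:ℚ) * (6 * b * (L a + δ)))
          = (p:ℚ)^2 * (c a * (A * B⁻¹)^3 * (36 * b^2 * L a * δ)) := by
        rw [div_eq_mul_inv]; ring
      rw [e]
      apply ppow_mem
      exact mul_mem (mul_mem hc (pow_mem (mul_mem h1 hi2) 3))
        (mul_mem (mul_mem (mul_mem h36m (pow_mem hb 2)) hL) hδZ)
    exact cong_trans s6 s7

lemma rho_big (hpn : p = 2*n+1) (b : ℕ) {j : ℕ} (hj : j < n) :
    ∃ z ∈ Z p, rho ((p*b : ℕ):ℚ) (n+1+j) = ((p:ℚ)*(2*b+1))^3 * z := by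
  induction j with
  | zero =>
    have hu : ¬ p ∣ (2*n+2) := between_ndvd (by omega) (by omega)
    refine ⟨rho ((p*b : ℕ):ℚ) n * (((2*((p*b : ℕ):ℚ)+2*n+2))⁻¹)^3,
      mul_mem (rho_mem_small hpn b le_rfl) (pow_mem (invb_mem hpn b hu) 3), ?_⟩
    rw [add_zero, rho_succ]
    unfold g
    have e : (2*((p*b : ℕ):ℚ)+2*n+1) = (p:ℚ)*(2*b+1) := by
      have := p_cast hpn
      push_cast
      rw [this]; ring
    rw [e, div_eq_mul_inv]
    ring
  | succ j ih =>
    obtain ⟨z, hz, h⟩ := ih (by omega)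
    have hu : ¬ p ∣ (2*(n+1+j)+2) := between_ndvd (by omega) (by omega)
    refine ⟨z * (g ((p*b : ℕ):ℚ) (n+1+j))^3, mul_mem hz (pow_mem (g_mem hpn b hu) 3), ?_⟩
    rw [show n+1+(j+1) = (n+1+j)+1 by ring, rho_succ, h]
    ring

lemma c_block (p b a : ℕ) : c (p*b+a) = c (p*b) * rho ((p*b : ℕ):ℚ) a := c_add (p*b) a

lemma c_pb (hpn : p = 2*n+1) (b : ℕ) : ∃ η ∈ Z p, c (p*b) = c b * η := by
  have hn : 0 < n := by
    have := hp.out.two_le
    omega
  induction b with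
  | zero => exact ⟨1, one_mem _, by simp⟩
  | succ b ih =>
    obtain ⟨η, hη, h⟩ := ih
    obtain ⟨z, hz, hr⟩ := rho_big hpn b (j := n-1) (by omega)
    rw [show n+1+(n-1) = 2*n by omega] at hr
    refine ⟨η * z * (2*((p*b : ℕ):ℚ)+2*((2*n:ℕ):ℚ)+1)^3,
      mul_mem (mul_mem hη hz) (pow_mem (numb_mem b (2*n)) 3), ?_⟩
    have e1 : c (p*(b+1)) = c (p*b) * rho ((p*b : ℕ):ℚ) (2*n+1) := by
      rw [← c_block, mul_add, mul_one]
      congr 1
      omega
    have hp0 : (p:ℚ) ≠ 0 := by exact_mod_cast hp.out.ne_zero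
    have hb0 : (2*(b:ℚ)+2) ≠ 0 := by positivity
    rw [e1, rho_succ, hr, h, c_succ]
    unfold g
    have e2 : (2*((p*b : ℕ):ℚ)+2*((2*n:ℕ):ℚ)+2) = (p:ℚ) * (2*b+2) := by
      have := p_cast hpn
      push_cast
      rw [this]; ring
    rw [e2]
    field_simp

lemma rho_mem (hpn : p = 2*n+1) (b : ℕ) {a : ℕ} (ha : a < p) :
    rho ((p*b : ℕ):ℚ) a ∈ Z p := by
  rcases Nat.lt_or_ge n a with h | h
  · obtain ⟨j, rfl⟩ := Nat.exists_eq_add_of_lt h
    obtain ⟨z, hz, hr⟩ := rho_big hpn b (j := j) (by omega)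
    rw [show n + j + 1 = n+1+j by ring, hr]
    have hb : (b:ℚ) ∈ Z p := nat_mem b
    have hpZ : (p:ℚ) ∈ Z p := nat_mem p
    have h21 := nat21_mem (p := p) b
    exact mul_mem (pow_mem (mul_mem hpZ h21) 3) hz
  · exact rho_mem_small hpn b h

lemma rho_big' (hpn : p = 2*n+1) (b : ℕ) {a : ℕ} (ha : a < p) (hna : n < a) :
    ∃ z ∈ Z p, rho ((p*b : ℕ):ℚ) a = ((p:ℚ)*(2*b+1))^3 * z := by
  obtain ⟨j, rfl⟩ := Nat.exists_eq_add_of_lt hna
  have := rho_big hpn b (j := j) (by omega)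
  rwa [show n + j + 1 = n+1+j by ring]

lemma rho_big_J (hpn : p = 2*n+1) (b : ℕ) {a : ℕ} (ha : a < p) (hna : n < a) :
    rho ((p*b : ℕ):ℚ) a ∈ J p 3 := by
  obtain ⟨z, hz, h⟩ := rho_big' hpn b ha hna
  rw [h, mul_pow, mul_assoc]
  exact ppow_mem 3 (mul_mem (pow_mem (nat21_mem b) 3) hz)

/-- the sum over one block -/
lemma block_sum (hpn : p = 2*n+1) (hn : Odd n) (h3 : 3 < p) (b : ℕ) :
    ∑ a ∈ range p, c (p*b+a) ∈ J p 2 := by
  have e : ∑ a ∈ range p, c (p*b+a) = c (p*b) * ∑ a ∈ range p, rho ((p*b : ℕ):ℚ) a := by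
    rw [mul_sum]
    exact sum_congr rfl (fun a _ => c_block p b a)
  rw [e]
  apply Z_mul_J (c_mem hpn _)
  have e2 : ∑ a ∈ range p, rho ((p*b : ℕ):ℚ) a
      = ∑ a ∈ range (n+1), rho ((p*b : ℕ):ℚ) a + ∑ j ∈ range n, rho ((p*b : ℕ):ℚ) (n+1+j) := by
    rw [← sum_range_add]
    congr 1
    rw [hpn]; congr 1; ring
  rw [e2]
  apply add_mem
  · have h1 : ∑ a ∈ range (n+1), rho ((p*b : ℕ):ℚ) a
        - ∑ a ∈ range (n+1), c a * (1 + (p:ℚ) * (6 * b * L a)) ∈ J p 2 := by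
      rw [← sum_sub_distrib]
      exact sum_mem (fun a ha => rho_small hpn b (by have := mem_range.1 ha; omega))
    apply J_iff_of_cong h1
    have e3 : ∑ a ∈ range (n+1), c a * (1 + (p:ℚ) * (6 * b * L a))
        = ∑ a ∈ range (n+1), c a + (p:ℚ) * ((6 * b) * ∑ a ∈ range (n+1), c a * L a) := by
      rw [mul_sum, mul_sum, ← sum_add_distrib]
      exact sum_congr rfl (fun a _ => by ring)
    rw [e3]
    have h6m : (6:ℚ) ∈ Z p := by exact_mod_cast nat_mem (p := p) 6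
    apply add_mem (sum_c hpn hn)
    exact J_mul (m := 1) (k := 1) p_mem
      (Z_mul_J (mul_mem h6m (nat_mem b)) (sum_cL hpn hn h3))
  · apply sum_mem
    intro j hj
    have hj := mem_range.1 hj
    exact J_anti (by norm_num) (rho_big_J hpn b (a := n+1+j) (by omega) (by omega))

/-- a carry at the top digit -/
lemma c_top (hpn : p = 2*n+1) (s : ℕ) : ∀ b : ℕ, b < p^s → p^s ≤ 2*b → c b ∈ J p 3 := by
  induction s with
  | zero =>
    intro b h1 h2
    simp at h1 h2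
    omega
  | succ s ih =>
    intro b h1 h2
    have hp0 : 0 < p := hp.out.pos
    obtain ⟨q, a, ha, hb⟩ : ∃ q a, a < p ∧ b = p*q+a :=
      ⟨b / p, b % p, Nat.mod_lt _ hp0, (Nat.div_add_mod b p).symm⟩
    subst hb
    obtain ⟨η, hη, hc⟩ := c_pb hpn q
    rw [c_block, hc]
    rcases Nat.lt_or_ge n a with h | h
    · exact Z_mul_J (mul_mem (c_mem hpn _) hη) (rho_big_J hpn q ha h)
    · have hps : p^(s+1) = p * p^s := by rw [pow_succ, mul_comm]
      rw [hps] at h1 h2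
      have hq1 : q < p^s := by
        by_contra hcon
        have : p * p^s ≤ p * q := Nat.mul_le_mul_left p (by omega)
        omega
      have hq2 : p^s ≤ 2*q := by
        by_contra hcon
        have h4 : p * (2*q+1) ≤ p * p^s := Nat.mul_le_mul_left p (by omega)
        have h5 : p * (2*q+1) = 2*(p*q) + p := by ring
        omega
      exact J_mul_Z (rho_mem hpn q ha) (J_mul_Z hη (ih q hq1 hq2))

/-! ### The double sum -/

noncomputable def Ssum (N : ℕ) : ℚ :=
  ∑ i ∈ range N, ∑ j ∈ range N, if i + j < N then c i * c j else 0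

lemma sum_range_mul' (p M : ℕ) (F : ℕ → ℚ) :
    ∑ i ∈ range (p*M), F i = ∑ b ∈ range M, ∑ a ∈ range p, F (p*b+a) := by
  induction M with
  | zero => simp
  | succ M ih =>
    rw [mul_add, mul_one, sum_range_add, ih, sum_range_succ]

lemma Ssum_blocks (p M : ℕ) :
    Ssum (p*M) = ∑ b ∈ range M, ∑ b' ∈ range M, ∑ a ∈ range p, ∑ a' ∈ range p,
      if (p*b+a) + (p*b'+a') < p*M then c (p*b+a) * c (p*b'+a') else 0 := by
  unfold Ssum
  rw [sum_range_mul']
  apply sum_congr rfl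
  intro b _
  rw [sum_comm]
  rw [sum_range_mul' p M (fun j => ∑ a ∈ range p,
    if (p*b+a) + j < p*M then c (p*b+a) * c j else 0)]
  apply sum_congr rfl
  intro b' _
  rw [sum_comm]

lemma block_J4 (hpn : p = 2*n+1) (hn : Odd n) (h3 : 3 < p) {s b b' : ℕ} (hs : 0 < s)
    (hb : b < p^s) (hb' : b' < p^s) :
    (∑ a ∈ range p, ∑ a' ∈ range p,
      if (p*b+a) + (p*b'+a') < p*p^s then c (p*b+a) * c (p*b'+a') else 0) ∈ J p 4 := by
  have hfull : (∑ a ∈ range p, ∑ a' ∈ range p, c (p*b+a) * c (p*b'+a')) ∈ J p 4 := by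
    rw [← sum_mul_sum]
    exact J_mul (block_sum hpn hn h3 b) (block_sum hpn hn h3 b')
  rcases Nat.lt_or_ge (b + b') (p^s) with hlt | hge
  · rcases Nat.lt_or_ge (b + b' + 1) (p^s) with hlt2 | hge2
    · -- all terms
      have e : (∑ a ∈ range p, ∑ a' ∈ range p,
          if (p*b+a) + (p*b'+a') < p*p^s then c (p*b+a) * c (p*b'+a') else 0)
          = ∑ a ∈ range p, ∑ a' ∈ range p, c (p*b+a) * c (p*b'+a') := by
        apply sum_congr rfl
        intro a ha
        apply sum_congr rfl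
        intro a' ha'
        have ha := mem_range.1 ha
        have ha' := mem_range.1 ha'
        have h4 : p * (b+b'+2) ≤ p * p^s := Nat.mul_le_mul_left p (by omega)
        have h5 : p * (b+b'+2) = p*b+p*b'+p+p := by ring
        rw [if_pos (by omega)]
      rw [e]; exact hfull
    · have hM : b + b' + 1 = p^s := by omega
      -- the full sum minus the terms with a + a' ≥ p
      have e : (∑ a ∈ range p, ∑ a' ∈ range p,
          if (p*b+a) + (p*b'+a') < p*p^s then c (p*b+a) * c (p*b'+a') else 0)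
          = ∑ a ∈ range p, ∑ a' ∈ range p, c (p*b+a) * c (p*b'+a')
            - ∑ a ∈ range p, ∑ a' ∈ range p,
              if p ≤ a + a' then c (p*b+a) * c (p*b'+a') else 0 := by
        rw [← sum_sub_distrib]
        apply sum_congr rfl
        intro a ha
        rw [← sum_sub_distrib]
        apply sum_congr rfl
        intro a' ha'
        rw [← hM]
        have h5 : p * (b+b'+1) = p*b+p*b'+p := by ring
        rw [h5]
        rcases Nat.lt_or_ge (a + a') p with h | h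
        · rw [if_pos (by omega), if_neg (by omega), sub_zero]
        · rw [if_neg (by omega), if_pos h, sub_self]
      rw [e]
      apply sub_mem hfull
      apply sum_mem
      intro a ha
      apply sum_mem
      intro a' ha'
      have ha := mem_range.1 ha
      have ha' := mem_range.1 ha'
      split_ifs with hc
      · -- a term with a carry
        have hZ1 : c (p*b+a) ∈ Z p := c_mem hpn _
        have hZ2 : c (p*b'+a') ∈ Z p := c_mem hpn _
        obtain ⟨η, hη, hcb⟩ := c_pb hpn b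
        obtain ⟨η', hη', hcb'⟩ := c_pb hpn b'
        by_cases hbb : b = b'
        · -- `2 b + 1 = p^s`
          subst hbb
          have h21 : (2*(b:ℚ)+1) = (p:ℚ)^s := by
            have : 2*b+1 = p^s := by omega
            exact_mod_cast this
          have h21J : ((p:ℚ)*(2*b+1))^3 ∈ J p 4 := by
            rw [h21]
            have : ((p:ℚ)*(p:ℚ)^s)^3 = (p:ℚ)^(3+3*s) * 1 := by ring
            rw [this]
            exact J_anti (by omega) (ppow_mem _ (one_mem _))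
          rcases Nat.lt_or_ge n a with h | h
          · obtain ⟨z, hz, hr⟩ := rho_big' hpn b ha h
            have : c (p*b+a) ∈ J p 4 := by
              rw [c_block, hr]
              exact Z_mul_J (c_mem hpn _) (J_mul_Z hz h21J)
            exact J_mul_Z hZ2 this
          · obtain ⟨z, hz, hr⟩ := rho_big' hpn b ha' (by omega)
            have : c (p*b+a') ∈ J p 4 := by
              rw [c_block, hr]
              exact Z_mul_J (c_mem hpn _) (J_mul_Z hz h21J)
            exact Z_mul_J hZ1 this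
        · -- one of `b, b'` has a carry at the top
          have hcc : c b * c b' ∈ J p 3 := by
            rcases Nat.lt_or_ge b b' with h | h
            · exact Z_mul_J (c_mem hpn _) (c_top hpn s b' hb' (by omega))
            · exact J_mul_Z (c_mem hpn _) (c_top hpn s b hb (by omega))
          have hrr : rho ((p*b : ℕ):ℚ) a * rho ((p*b' : ℕ):ℚ) a' ∈ J p 3 := by
            rcases Nat.lt_or_ge n a with h | h
            · exact J_mul_Z (rho_mem hpn b' ha') (rho_big_J hpn b ha h)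
            · exact Z_mul_J (rho_mem hpn b ha) (rho_big_J hpn b' ha' (by omega))
          have e2 : c (p*b+a) * c (p*b'+a')
              = (c b * c b') * (rho ((p*b : ℕ):ℚ) a * rho ((p*b' : ℕ):ℚ) a') * (η * η') := by
            rw [c_block, c_block, hcb, hcb']; ring
          rw [e2]
          exact J_mul_Z (mul_mem hη hη')
            (J_anti (by norm_num) (J_mul hcc hrr))
      · exact zero_mem _
  · -- no terms
    have e : (∑ a ∈ range p, ∑ a' ∈ range p,
        if (p*b+a) + (p*b'+a') < p*p^s then c (p*b+a) * c (p*b'+a') else 0) = 0 := by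
      apply sum_eq_zero
      intro a _
      apply sum_eq_zero
      intro a' _
      have h4 : p * p^s ≤ p * (b+b') := Nat.mul_le_mul_left p hge
      have h5 : p * (b+b') = p*b+p*b' := by ring
      rw [if_neg (by omega)]
    rw [e]; exact zero_mem _

theorem Ssum_ge_two (hpn : p = 2*n+1) (hn : Odd n) (h3 : 3 < p) {s : ℕ} (hs : 0 < s) :
    Ssum (p^(s+1)) ∈ J p 4 := by
  rw [pow_succ, mul_comm, Ssum_blocks]
  apply sum_mem
  intro b hb
  apply sum_mem
  intro b' hb'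
  exact block_J4 hpn hn h3 hs (mem_range.1 hb) (mem_range.1 hb')

end Pool.Agent.V11304.SC
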