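import Mathlib

/-!
# Hypergeometric certificates

* `tsum_odd`: `∑_k C(n,k) C(n+k,k) C(2k,k) (-1/4)^k = 0` for odd `n`;
* `V_rec`: the two-step recursion of
  `V N = ∑_κ (-1)^κ / C(N,κ)^3 * ∑_{j ≤ κ} (-1)^j C(N+1,j)^3` for even `N`.
-/

namespace Pool.Agent.V11304.SC

open Finset

/-! ### The sum for odd `n` -/

noncomputable def t (n k : ℕ) : ℚ :=
  (n.choose k : ℚ) * ((n + k).choose k : ℚ) * (Nat.centralBinom k : ℚ) * (-1/4)^k

lemma choose_up (n k : ℕ) :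
    ((n+1).choose (k+1) : ℚ) * (k+1) = (n.choose k : ℚ) * (n+1) := by
  have h := Nat.add_one_mul_choose_eq n k
  have h' : ((n + 1 : ℕ) : ℚ) * (n.choose k : ℚ) = ((n+1).choose (k+1) : ℚ) * ((k+1 : ℕ) : ℚ) := by
    exact_mod_cast h
  push_cast at h'
  linarith

lemma choose_right (n k : ℕ) :
    (n.choose (k+1) : ℚ) * (k+1) = (n.choose k : ℚ) * (n - k) := by
  have h1 := choose_up n k
  have h2 : ((n+1).choose (k+1) : ℚ) = (n.choose k : ℚ) + (n.choose (k+1) : ℚ) := by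
    exact_mod_cast Nat.choose_succ_succ n k
  rw [h2] at h1
  linarith

lemma choose_down (n k : ℕ) :
    ((n+1).choose k : ℚ) * (n + 1 - k) = (n.choose k : ℚ) * (n+1) := by
  have h1 := choose_up n k
  have h3 := choose_right (n+1) k
  push_cast at h3
  linarith

lemma centralBinom_rec (k : ℕ) :
    (Nat.centralBinom (k+1) : ℚ) * (k+1) = 2 * (2*k+1) * (Nat.centralBinom k : ℚ) := by
  have h := Nat.succ_mul_centralBinom_succ k
  have h' : (((k + 1) * Nat.centralBinom (k+1) : ℕ) : ℚ)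
      = ((2 * (2*k+1) * Nat.centralBinom k : ℕ) : ℚ) := by
    exact_mod_cast h
  push_cast at h'
  linarith

/-- the certificate -/
noncomputable def Gt (n k : ℕ) : ℚ :=
  -2 * (2*n+3) * k^3 * ((n+2).choose k : ℚ) * ((n + k).choose k : ℚ) *
    (Nat.centralBinom k : ℚ) * (-1/4)^k / ((n+1)*(n+2))

lemma t_cert (n k : ℕ) :
    ((n:ℚ)+2)^2 * t (n+2) k - ((n:ℚ)+1)^2 * t n k = Gt n (k+1) - Gt n k := by
  have a1 := choose_down n k
  have a2 := choose_down (n+1) k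
  have a3 := choose_right (n+2) k
  have b1 : ((n+k+1).choose k : ℚ) * (n+1) = ((n+k).choose k : ℚ) * (n+k+1) := by
    have := choose_down (n+k) k
    push_cast at this
    have e : ((n:ℚ)+k+1-k) = n+1 := by ring
    rw [e] at this
    linarith
  have b2 : ((n+k+2).choose k : ℚ) * (n+2) = ((n+k+1).choose k : ℚ) * (n+k+2) := by
    have := choose_down (n+k+1) k
    push_cast at this
    have e : ((n:ℚ)+k+1+1-k) = n+2 := by ring
    rw [e] at this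
    have e2 : n+k+1+1 = n+k+2 := by ring
    rw [e2] at this
    linarith
  have b3 : ((n+k+1).choose (k+1) : ℚ) * (k+1) = ((n+k).choose k : ℚ) * (n+k+1) := by
    have := choose_up (n+k) k
    push_cast at this
    exact this
  have c1 := centralBinom_rec k
  have hn1 : ((n:ℚ)+1) ≠ 0 := by positivity
  have hn2 : ((n:ℚ)+2) ≠ 0 := by positivity
  have hk1 : ((k:ℚ)+1) ≠ 0 := by positivity
  push_cast at a2 a3
  have e1 : n + 1 + 1 = n + 2 := rfl
  rw [e1] at a2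
  -- solve for everything in terms of X = C(n+2,k), Y = C(n+k,k), Z = C(2k,k)
  set X : ℚ := ((n+2).choose k : ℚ) with hX
  set Y : ℚ := ((n+k).choose k : ℚ) with hY
  set Z : ℚ := (Nat.centralBinom k : ℚ) with hZ
  have A2 : ((n+1).choose k : ℚ) = X * (n+2-k) / (n+2) := by
    field_simp; linarith
  have A1 : (n.choose k : ℚ) = X * (n+2-k) * (n+1-k) / ((n+2)*(n+1)) := by
    rw [A2] at a1
    field_simp at a1 ⊢
    linarith
  have A3 : ((n+2).choose (k+1) : ℚ) = X * (n+2-k) / (k+1) := by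
    field_simp; linarith
  have B1 : ((n+k+1).choose k : ℚ) = Y * (n+k+1) / (n+1) := by
    field_simp; linarith
  have B2 : ((n+k+2).choose k : ℚ) = Y * (n+k+1) * (n+k+2) / ((n+1)*(n+2)) := by
    rw [B1] at b2
    field_simp at b2 ⊢
    linarith
  have B3 : ((n+k+1).choose (k+1) : ℚ) = Y * (n+k+1) / (k+1) := by
    field_simp; linarith
  have C1 : (Nat.centralBinom (k+1) : ℚ) = 2 * (2*k+1) * Z / (k+1) := by
    field_simp; linarith
  have e3 : n + 2 + k = n + k + 2 := by ring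
  have e4 : n + (k + 1) = n + k + 1 := by ring
  unfold t Gt
  rw [e3, e4, ← hX, ← hY, ← hZ, A1, A3, B2, B3, C1, pow_succ]
  push_cast
  field_simp
  ring

lemma t_partial (n K : ℕ) :
    ((n:ℚ)+2)^2 * ∑ k ∈ range K, t (n+2) k - ((n:ℚ)+1)^2 * ∑ k ∈ range K, t n k = Gt n K := by
  induction K with
  | zero => simp [Gt]
  | succ K ih =>
    rw [sum_range_succ, sum_range_succ]
    have := t_cert n K
    linarith

lemma t_zero {n k : ℕ} (h : n < k) : t n k = 0 := by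
  unfold t
  rw [Nat.choose_eq_zero_of_lt h]
  simp

lemma tsum_step (n : ℕ) :
    ((n:ℚ)+2)^2 * ∑ k ∈ range (n+3), t (n+2) k = ((n:ℚ)+1)^2 * ∑ k ∈ range (n+1), t n k := by
  have h := t_partial n (n+3)
  have h2 : Gt n (n+3) = 0 := by
    unfold Gt
    rw [Nat.choose_eq_zero_of_lt (by omega : n + 2 < n + 3)]
    simp
  rw [h2] at h
  have h3 : ∑ k ∈ range (n+3), t n k = ∑ k ∈ range (n+1), t n k := by
    rw [sum_range_succ, sum_range_succ, t_zero (by omega : n < n+2), t_zero (by omega : n < n+1)]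
    ring
  rw [h3] at h
  linarith

theorem tsum_odd (m : ℕ) : ∑ k ∈ range (2*m+2), t (2*m+1) k = 0 := by
  induction m with
  | zero =>
    simp [sum_range_succ, t, Nat.centralBinom]
    norm_num
  | succ m ih =>
    have h := tsum_step (2*m+1)
    rw [show 2*m+1+1 = 2*m+2 by ring, ih, mul_zero] at h
    have hne : (((2*m+1 : ℕ) : ℚ) + 2)^2 ≠ 0 := by positivity
    have := (mul_eq_zero.1 h).resolve_left hne
    rw [show 2*(m+1)+2 = 2*m+1+3 by ring, show 2*(m+1)+1 = 2*m+1+2 by ring]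
    exact this

/-! ### The double sum -/

noncomputable def u (n k : ℕ) : ℚ := (-1)^k * (n.choose k : ℚ)^3

noncomputable def U (n K : ℕ) : ℚ := ∑ k ∈ range K, u n k

def q (n k : ℚ) : ℚ :=
  -(28*n^5+220*n^4+682*n^3+1042*n^2+784*n+232)+(78*n^4+483*n^3+1107*n^2+1113*n+414)*k
  -(87*n^3+396*n^2+594*n+294)*k^2+(45*n^2+132*n+96)*k^3-(9*n+12)*k^4

def s (N k : ℚ) : ℚ :=
  -(28*N^5+340*N^4+1642*N^3+3942*N^2+4704*N+2232)+(78*N^4+765*N^3+2799*N^2+4527*N+2730)*k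
  -(87*N^3+648*N^2+1602*N+1314)*k^2+(45*N^2+228*N+288)*k^3-(9*N+24)*k^4

lemma u_cert_zero (n : ℕ) :
    ((n:ℚ)+2)^2 * u (n+2) 0 + 3*(3*n+2)*(3*n+4) * u n 0
      = -q n 1 / (n+1)^3 := by
  unfold u q
  have hn1 : ((n:ℚ)+1) ≠ 0 := by positivity
  simp only [Nat.choose_zero_right]
  push_cast
  field_simp
  ring

/-- the certificate for `κ + 1` -/
noncomputable def Gu (n κ : ℕ) : ℚ :=
  -(-1)^κ * ((n+1).choose κ : ℚ)^3 * q n (κ+1) / (n+1)^3

lemma u_cert (n κ : ℕ) :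
    ((n:ℚ)+2)^2 * u (n+2) (κ+1) + 3*(3*n+2)*(3*n+4) * u n (κ+1)
      = Gu n (κ+1) - Gu n κ := by
  have hn1 : ((n:ℚ)+1) ≠ 0 := by positivity
  have hn2 : ((n:ℚ)+2) ≠ 0 := by positivity
  have hk1 : ((κ:ℚ)+1) ≠ 0 := by positivity
  have a1 := choose_right (n+1) κ
  have a2 := choose_down n (κ+1)
  have a3 : ((n+2).choose (κ+1) : ℚ) * (κ+1) = ((n+1).choose κ : ℚ) * (n+2) := by
    have := choose_up (n+1) κ
    push_cast at this
    rw [show (n:ℚ)+1+1 = n + 2 by ring] at this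
    exact this
  push_cast at a1 a2
  set X : ℚ := ((n+1).choose κ : ℚ) with hX
  have A1 : ((n+1).choose (κ+1) : ℚ) = X * (n+1-κ) / (κ+1) := by
    field_simp; linarith
  have A2 : (n.choose (κ+1) : ℚ) = X * (n+1-κ) * (n - κ) / ((κ+1)*(n+1)) := by
    rw [A1] at a2
    field_simp at a2 ⊢
    linarith
  have A3 : ((n+2).choose (κ+1) : ℚ) = X * (n+2) / (κ+1) := by
    field_simp; linarith
  unfold u Gu q
  rw [A1, A2, A3, ← hX, pow_succ]
  push_cast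
  field_simp
  ring

lemma U_rec (n κ : ℕ) :
    ((n:ℚ)+2)^2 * U (n+2) (κ+1) + 3*(3*n+2)*(3*n+4) * U n (κ+1) = Gu n κ := by
  induction κ with
  | zero =>
    have := u_cert_zero n
    unfold U Gu
    simp only [zero_add, sum_range_one, Nat.choose_zero_right, Nat.cast_zero, pow_zero,
      Nat.cast_one, one_pow]
    rw [this]
    ring
  | succ κ ih =>
    have h := u_cert n κ
    have e1 : U (n+2) (κ+1+1) = U (n+2) (κ+1) + u (n+2) (κ+1) := by
      unfold U; rw [sum_range_succ]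
    have e2 : U n (κ+1+1) = U n (κ+1) + u n (κ+1) := by
      unfold U; rw [sum_range_succ]
    rw [e1, e2]
    linarith

lemma u_reflect {n k : ℕ} (hn : Odd n) (hk : k ≤ n) : u n (n - k) = - u n k := by
  unfold u
  rw [Nat.choose_symm hk]
  have h1 : ((-1:ℚ))^(n-k) * (-1)^k = -1 := by
    rw [← pow_add, Nat.sub_add_cancel hk, hn.neg_one_pow]
  have h2 : ((-1:ℚ))^k * (-1)^k = 1 := by
    rw [← mul_pow]; norm_num
  have h3 : ((-1:ℚ))^(n-k) = -(-1)^k := by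
    have : ((-1:ℚ))^(n-k) = ((-1:ℚ))^(n-k) * ((-1)^k * (-1)^k) := by rw [h2, mul_one]
    rw [this, ← mul_assoc, h1]; ring
  rw [h3]; ring

lemma U_full {n : ℕ} (hn : Odd n) : U n (n+1) = 0 := by
  have h : U n (n+1) = - U n (n+1) := by
    calc U n (n+1) = ∑ k ∈ range (n+1), u n (n + 1 - 1 - k) := by
          unfold U; rw [Finset.sum_range_reflect]
      _ = ∑ k ∈ range (n+1), - u n k := by
          apply sum_congr rfl
          intro k hk
          rw [Nat.add_sub_cancel]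
          exact u_reflect hn (by have := mem_range.1 hk; omega)
      _ = - U n (n+1) := by unfold U; rw [sum_neg_distrib]
  linarith

lemma u_zero {n k : ℕ} (h : n < k) : u n k = 0 := by
  unfold u
  rw [Nat.choose_eq_zero_of_lt h]
  simp

noncomputable def w (N κ : ℕ) : ℚ := (-1)^κ / (N.choose κ : ℚ)^3

noncomputable def E (N κ : ℕ) : ℚ := (-1)^κ * s N κ / ((N+1).choose κ : ℚ)^3

lemma w_cert {N κ : ℕ} (h : κ ≤ N) :
    3*(3*N+8)*(3*N+10)*((N:ℚ)+2)^3 * w (N+2) κ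
      + ((N:ℚ)+2)^5*(N+3)^3/(N+1)^3 * w N κ = E N (κ+1) - E N κ := by
  have hN1 : ((N:ℚ)+1) ≠ 0 := by positivity
  have hN2 : ((N:ℚ)+2) ≠ 0 := by positivity
  have hk1 : ((κ:ℚ)+1) ≠ 0 := by positivity
  have hle : (κ:ℚ) ≤ N := by exact_mod_cast h
  have hNk1 : ((N:ℚ)+1-κ) ≠ 0 := by
    have : (0:ℚ) < N + 1 - κ := by linarith
    exact this.ne'
  have hNk2 : ((N:ℚ)+2-κ) ≠ 0 := by
    have : (0:ℚ) < N + 2 - κ := by linarith
    exact this.ne'
  have a1 := choose_right (N+1) κ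
  have a2 := choose_down N κ
  have a3 := choose_down (N+1) κ
  push_cast at a1 a2 a3
  rw [show N + 1 + 1 = N + 2 from rfl] at a3
  have hX0 : ((N+1).choose κ : ℚ) ≠ 0 := by
    exact_mod_cast (Nat.choose_pos (by omega)).ne'
  set X : ℚ := ((N+1).choose κ : ℚ) with hX
  have A1 : ((N+1).choose (κ+1) : ℚ) = X * (N+1-κ) / (κ+1) := by
    field_simp; linarith
  have A2 : (N.choose κ : ℚ) = X * (N+1-κ) / (N+1) := by
    field_simp; linarith
  have A3 : ((N+2).choose κ : ℚ) = X * (N+2) / (N+2-κ) := by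
    field_simp; linarith
  unfold w E s
  rw [A1, A2, A3, ← hX, pow_succ]
  push_cast
  field_simp
  ring

noncomputable def V (N : ℕ) : ℚ := ∑ κ ∈ range (N+1), w N κ * U (N+1) (κ+1)

lemma E_mul_u {N κ : ℕ} (h : κ ≤ N + 1) : E N κ * u (N+1) κ = s N κ := by
  unfold E u
  have hX0 : ((N+1).choose κ : ℚ) ≠ 0 := by
    exact_mod_cast (Nat.choose_pos (by omega)).ne'
  have h2 : ((-1:ℚ))^κ * (-1)^κ = 1 := by
    rw [← mul_pow]; norm_num
  field_simp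
  linear_combination (s N κ) * h2

lemma w_mul_Gu {N κ : ℕ} (h : κ ≤ N + 2) :
    w (N+2) κ * Gu (N+1) κ = - q (N+1) (κ+1) / (N+2)^3 := by
  unfold w Gu
  have hX0 : ((N+2).choose κ : ℚ) ≠ 0 := by
    exact_mod_cast (Nat.choose_pos (by omega)).ne'
  have h2 : ((-1:ℚ))^κ * (-1)^κ = 1 := by
    rw [← mul_pow]; norm_num
  rw [show N + 1 + 1 = N + 2 from rfl]
  push_cast
  have hN2 : ((N:ℚ)+2) ≠ 0 := by positivity
  rw [show (N:ℚ)+1+1 = N + 2 by ring]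
  field_simp
  linear_combination (-q (N+1) (κ+1)) * h2

/-- summation by parts -/
lemma parts (N M : ℕ) :
    ∑ κ ∈ range M, (E N (κ+1) - E N κ) * U (N+1) (κ+1)
      = E N M * U (N+1) (M+1) - ∑ κ ∈ range (M+1), E N κ * u (N+1) κ := by
  induction M with
  | zero => simp [U]
  | succ M ih =>
    rw [sum_range_succ, ih, sum_range_succ _ (M+1)]
    have e1 : U (N+1) (M+1+1) = U (N+1) (M+1) + u (N+1) (M+1) := by
      unfold U; rw [sum_range_succ]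
    rw [e1]
    ring

lemma faulhaber (c0 c1 c2 c3 c4 : ℚ) (K : ℕ) :
    ∑ k ∈ range K, (c0 + c1 * (k:ℚ) + c2 * (k:ℚ)^2 + c3 * (k:ℚ)^3 + c4 * (k:ℚ)^4)
      = c0 * K + c1 * (K*(K-1)/2) + c2 * (K*(K-1)*(2*K-1)/6) + c3 * (K^2*(K-1)^2/4)
        + c4 * (K*(K-1)*(2*K-1)*(3*K^2-3*K-1)/30) := by
  induction K with
  | zero => simp
  | succ K ih =>
    rw [sum_range_succ, ih]
    push_cast
    ring

lemma polysum (N : ℕ) :
    (3*(N:ℚ)+8)*(3*N+10) * ∑ κ ∈ range (N+3), q (N+1) (κ+1)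
      = (3*N+5)*(3*N+7) * ∑ κ ∈ range (N+2), s N κ := by
  have h1 := faulhaber (-28*(N:ℚ)^5-282*N^4-1128*N^3-2246*N^2-2232*N-896 - 896*0)
    0 0 0 0 (N+3)
  have hq : ∀ κ : ℕ, q (N+1) ((κ:ℚ)+1) =
      (q (N+1) 1) + (q (N+1) 1 * 0 + ((78*((N:ℚ)+1)^4+483*((N:ℚ)+1)^3+1107*((N:ℚ)+1)^2+1113*((N:ℚ)+1)+414)
        - 2*(87*((N:ℚ)+1)^3+396*((N:ℚ)+1)^2+594*((N:ℚ)+1)+294)
        + 3*(45*((N:ℚ)+1)^2+132*((N:ℚ)+1)+96) - 4*(9*((N:ℚ)+1)+12))) * (κ:ℚ)
      + (-(87*((N:ℚ)+1)^3+396*((N:ℚ)+1)^2+594*((N:ℚ)+1)+294)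
        + 3*(45*((N:ℚ)+1)^2+132*((N:ℚ)+1)+96) - 6*(9*((N:ℚ)+1)+12)) * (κ:ℚ)^2
      + ((45*((N:ℚ)+1)^2+132*((N:ℚ)+1)+96) - 4*(9*((N:ℚ)+1)+12)) * (κ:ℚ)^3
      + (-(9*((N:ℚ)+1)+12)) * (κ:ℚ)^4 := by
    intro κ
    unfold q
    ring
  have hs : ∀ κ : ℕ, s N (κ:ℚ) =
      (-(28*(N:ℚ)^5+340*N^4+1642*N^3+3942*N^2+4704*N+2232))
      + (78*(N:ℚ)^4+765*N^3+2799*N^2+4527*N+2730) * (κ:ℚ)
      + (-(87*(N:ℚ)^3+648*N^2+1602*N+1314)) * (κ:ℚ)^2
      + (45*(N:ℚ)^2+228*N+288) * (κ:ℚ)^3 + (-(9*(N:ℚ)+24)) * (κ:ℚ)^4 := by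
    intro κ
    unfold s
    ring
  rw [sum_congr rfl (fun κ _ => hq κ), sum_congr rfl (fun κ _ => hs κ), faulhaber, faulhaber]
  unfold q
  push_cast
  ring

/-- The two-step recursion for even `N`. -/
theorem V_rec {N : ℕ} (hN : Even N) :
    (3*(N:ℚ)+8)*(3*N+10)*(N+1)^3 * V (N+2) = (3*N+5)*(3*N+7)*(N+2)^2*(N+3) * V N := by
  have hN1 : ((N:ℚ)+1) ≠ 0 := by positivity
  have hN2 : ((N:ℚ)+2) ≠ 0 := by positivity
  have hN3 : ((N:ℚ)+3) ≠ 0 := by positivity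
  have hodd : Odd (N+1) := hN.add_one
  have hU : U (N+1) (N+2) = 0 := U_full hodd
  have hU2 : U (N+1) (N+3) = 0 := by
    have : U (N+1) (N+3) = U (N+1) (N+2) + u (N+1) (N+2) := by
      unfold U; rw [sum_range_succ]
    rw [this, hU, u_zero (by omega)]; ring
  -- the inner recursion
  have key1 : ((N:ℚ)+3)^2 * V (N+2) = -(∑ κ ∈ range (N+3), q (N+1) (κ+1)) / (N+2)^3
      - 3*(3*N+5)*(3*N+7) * ∑ κ ∈ range (N+1), w (N+2) κ * U (N+1) (κ+1) := by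
    have e1 : ∑ κ ∈ range (N+3), w (N+2) κ * U (N+1) (κ+1)
        = ∑ κ ∈ range (N+1), w (N+2) κ * U (N+1) (κ+1) := by
      rw [sum_range_succ, sum_range_succ, hU, hU2]; ring
    rw [← e1]
    unfold V
    rw [show N + 2 + 1 = N + 3 from rfl, mul_sum, mul_sum, neg_div, sum_div, ← sum_neg_distrib,
      ← sum_sub_distrib]
    apply sum_congr rfl
    intro κ hκ
    have hκ' : κ ≤ N + 2 := by have := mem_range.1 hκ; omega
    have h1 := w_mul_Gu hκ'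
    have h2 := U_rec (N+1) κ
    rw [show N + 1 + 2 = N + 3 from rfl] at h2
    push_cast at h2
    have h3 : -(q (N+1) (κ+1) / ((N:ℚ)+2)^3) = w (N+2) κ * Gu (N+1) κ := by
      rw [h1]; ring
    rw [h3, ← h2]
    ring
  have key2 : 3*(3*N+8)*(3*N+10)*((N:ℚ)+2)^3 * ∑ κ ∈ range (N+1), w (N+2) κ * U (N+1) (κ+1)
      = - (∑ κ ∈ range (N+2), s N κ) - ((N:ℚ)+2)^5*(N+3)^3/(N+1)^3 * V N := by
    have h1 := parts N (N+1)
    rw [show N + 1 + 1 = N + 2 from rfl, hU, mul_zero, zero_sub] at h1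
    have h2 : ∑ κ ∈ range (N+2), E N κ * u (N+1) κ = ∑ κ ∈ range (N+2), s N κ := by
      apply sum_congr rfl
      intro κ hκ
      exact E_mul_u (by have := mem_range.1 hκ; omega)
    rw [h2] at h1
    have h3 : ∑ κ ∈ range (N+1), (E N (κ+1) - E N κ) * U (N+1) (κ+1)
        = 3*(3*N+8)*(3*N+10)*((N:ℚ)+2)^3 * ∑ κ ∈ range (N+1), w (N+2) κ * U (N+1) (κ+1)
          + ((N:ℚ)+2)^5*(N+3)^3/(N+1)^3 * V N := by
      unfold V
      rw [mul_sum, mul_sum, ← sum_add_distrib]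
      apply sum_congr rfl
      intro κ hκ
      have := w_cert (N := N) (κ := κ) (by have := mem_range.1 hκ; omega)
      rw [← this]; ring
    rw [h3] at h1
    linarith
  have key3 := polysum N
  set Sq := ∑ κ ∈ range (N+3), q (N+1) (κ+1) with hSq
  set Ss := ∑ κ ∈ range (N+2), s N κ with hSs
  set W := ∑ κ ∈ range (N+1), w (N+2) κ * U (N+1) (κ+1) with hW
  have k1 : ((N:ℚ)+3)^2 * V (N+2) * (N+2)^3 = -Sq - 3*(3*N+5)*(3*N+7) * W * (N+2)^3 := by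
    rw [key1]; field_simp
  have k2 : 3*(3*N+8)*(3*N+10)*((N:ℚ)+2)^3 * W * (N+1)^3
      = - Ss * (N+1)^3 - ((N:ℚ)+2)^5*(N+3)^3 * V N := by
    have : 3*(3*N+8)*(3*N+10)*((N:ℚ)+2)^3 * W * (N+1)^3
      = (3*(3*N+8)*(3*N+10)*((N:ℚ)+2)^3 * W) * (N+1)^3 := by ring
    rw [this, key2]; field_simp
  have h5 : ((N:ℚ)+3)^2 * (N+2)^3 * ((3*(N:ℚ)+8)*(3*N+10)*(N+1)^3 * V (N+2))
      = ((N:ℚ)+3)^2 * (N+2)^3 * ((3*N+5)*(3*N+7)*(N+2)^2*(N+3) * V N) := by
    linear_combination ((3*(N:ℚ)+8)*(3*N+10)*(N+1)^3) * k1 - ((N:ℚ)+1)^3 * key3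
      - ((3*(N:ℚ)+5)*(3*N+7)) * k2
  exact mul_left_cancel₀ (by positivity) h5

lemma V_zero : V 0 = 1 := by
  simp [V, w, U, u]

end Pool.Agent.V11304.SC
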