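import Pool.Agent.V11304.SC.Block

/-!
# The case of one block, and the main theorem
-/

namespace Pool.Agent.V11304.SC

open Finset

variable {p n : ℕ} [hp : Fact p.Prime]

lemma Ssum_one (n : ℕ) :
    Ssum (2*n+1) = (∑ a ∈ range (n+1), c a)^2
      + 2 * ∑ κ ∈ range n, c (n+1+κ) * ∑ j ∈ range (n-κ), c j := by
  have hsplit : ∀ F : ℕ → ℚ, ∑ i ∈ range (2*n+1), F i
      = ∑ i ∈ range (n+1), F i + ∑ κ ∈ range n, F (n+1+κ) := by
    intro F
    rw [← sum_range_add]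
    congr 1
    congr 1
    ring
  unfold Ssum
  rw [hsplit]
  simp_rw [hsplit]
  rw [sum_add_distrib, sum_add_distrib]
  have e1 : ∑ i ∈ range (n+1), ∑ j ∈ range (n+1), (if i + j < 2*n+1 then c i * c j else 0)
      = (∑ a ∈ range (n+1), c a)^2 := by
    rw [pow_two, sum_mul_sum]
    apply sum_congr rfl
    intro i hi
    apply sum_congr rfl
    intro j hj
    have hi := mem_range.1 hi
    have hj := mem_range.1 hj
    rw [if_pos (by omega)]
  have e3 : ∑ κ ∈ range n, ∑ j ∈ range (n+1), (if n+1+κ + j < 2*n+1 then c (n+1+κ) * c j else 0)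
      = ∑ κ ∈ range n, c (n+1+κ) * ∑ j ∈ range (n-κ), c j := by
    apply sum_congr rfl
    intro κ hκ
    have hκ := mem_range.1 hκ
    rw [mul_sum, ← sum_filter]
    apply sum_congr _ (fun _ _ => rfl)
    ext j
    simp only [mem_filter, mem_range]
    omega
  have e2 : ∑ i ∈ range (n+1), ∑ κ ∈ range n, (if i + (n+1+κ) < 2*n+1 then c i * c (n+1+κ) else 0)
      = ∑ κ ∈ range n, c (n+1+κ) * ∑ j ∈ range (n-κ), c j := by
    rw [← e3, sum_comm]
    apply sum_congr rfl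
    intro κ _
    apply sum_congr rfl
    intro i _
    rw [add_comm i (n+1+κ), mul_comm (c i)]
  have e4 : ∑ κ ∈ range n, ∑ κ' ∈ range n,
      (if n+1+κ + (n+1+κ') < 2*n+1 then c (n+1+κ) * c (n+1+κ') else 0) = 0 := by
    apply sum_eq_zero
    intro κ _
    apply sum_eq_zero
    intro κ' _
    rw [if_neg (by omega)]
  rw [e1, e2, e3, e4]
  ring

lemma choose_ndvd {N κ : ℕ} (h : κ ≤ N) (hN : N < p) : ¬ p ∣ N.choose κ := by
  intro hd
  have h1 : p ∣ N.factorial := by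
    rw [← Nat.choose_mul_factorial_mul_factorial h]
    exact Dvd.dvd.mul_right (Dvd.dvd.mul_right hd _) _
  have := (hp.out.dvd_factorial).1 h1
  omega

lemma w_mem {N κ : ℕ} (h : κ ≤ N) (hN : N < p) : w N κ ∈ Z p := by
  unfold w
  rw [div_eq_mul_inv, ← inv_pow]
  exact mul_mem (pow_mem (neg_mem (one_mem _)) _) (pow_mem (inv_mem (choose_ndvd h hN)) 3)

lemma w_succ {N κ : ℕ} (h : κ + 1 ≤ N) :
    w N κ * (κ+1)^3 = - w N (κ+1) * (N-κ)^3 := by
  have a1 := choose_right N κ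
  have hk1 : ((κ:ℚ)+1) ≠ 0 := by positivity
  have hX0 : (N.choose κ : ℚ) ≠ 0 := by
    exact_mod_cast (Nat.choose_pos (by omega)).ne'
  have hY0 : (N.choose (κ+1) : ℚ) ≠ 0 := by
    exact_mod_cast (Nat.choose_pos (by omega)).ne'
  have hle : ((κ:ℚ)+1) ≤ N := by exact_mod_cast h
  have hNk : ((N:ℚ) - κ) ≠ 0 := by
    have : (0:ℚ) < N - κ := by linarith
    exact this.ne'
  unfold w
  have A1 : (N.choose (κ+1) : ℚ) = (N.choose κ : ℚ) * (N-κ)/(κ+1) := by
    field_simp; linarith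
  rw [A1, pow_succ (-1:ℚ) κ]
  field_simp

omit hp in
lemma frac_id (P κ D : ℚ) (hD : D = 2*P - (2*κ+2)) (hD0 : D ≠ 0) (hk : 2*κ+2 ≠ 0) :
    ((2*P - (2*κ+3)) * D⁻¹) - ((2*κ+3 - P) * (2*κ+2)⁻¹)
      = P^1 * ((D⁻¹ * (2*κ+2)⁻¹) * (2*P - (2*κ+4))) := by
  have e1 : (2*P - (2*κ+3)) = D - 1 := by rw [hD]; ring
  have e2 : (2*P - (2*κ+4)) = D - 2 := by rw [hD]; ring
  have e3 : P = (D + (2*κ+2))/2 := by rw [hD]; ring
  have hk1 : κ + 1 ≠ 0 := by
    intro h
    apply hk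
    have : 2*κ+2 = 2*(κ+1) := by ring
    rw [this, h, mul_zero]
  rw [e1, e2, e3]
  field_simp
  ring

/-- `c (n+1+j) ≡ -p^3 w(n-1, n-1-j)` modulo `p^4` -/
lemma c_high (hpn : p = 2*n+1) (hn : Odd n) {j : ℕ} (hj : j < n) :
    c (n+1+j) + (p:ℚ)^3 * w (n-1) (n-1-j) ∈ J p 4 := by
  have hnpos : 0 < n := hn.pos
  induction j with
  | zero =>
    have e1 : c (n+1+0) = c n * ((2*(n:ℚ)+1)/(2*n+2))^3 := by
      rw [add_zero, c_succ]
    have hw : w (n-1) (n-1-0) = 1 := by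
      unfold w
      rw [Nat.sub_zero, Nat.choose_self]
      have : Even (n-1) := by
        obtain ⟨m, hm⟩ := hn
        exact ⟨m, by omega⟩
      rw [this.neg_one_pow]; simp
    have hu : u n n = -1 := by
      unfold u
      rw [Nat.choose_self, hn.neg_one_pow]; simp
    have hpc := p_cast hpn
    have hi : ((p:ℚ)+1)⁻¹ ∈ Z p := by
      have h1 : ¬ p ∣ p + 1 := by
        intro h
        have h2 : p ∣ 1 := (Nat.dvd_add_right (dvd_refl p)).1 h
        have := Nat.le_of_dvd (by norm_num) h2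
        have := hp.out.two_le
        omega
      have := inv_mem h1
      push_cast at this
      exact this
    have hp1 : ((p:ℚ)+1) ≠ 0 := by positivity
    have hcu := c_cong_u hpn (a := n) le_rfl
    rw [hu] at hcu
    -- c n = -1 + p z
    obtain ⟨z, hz, hcz⟩ := hcu
    have hcn : c n = -1 + p * z := by
      rw [pow_one] at hcz; linarith
    have e2 : c (n+1+0) + (p:ℚ)^3 * w (n-1) (n-1-0)
        = (p:ℚ)^4 * ((z + (p^2 + 3*p + 3)) * ((p+1:ℚ)⁻¹)^3) := by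
      rw [e1, hw, hcn, show (2*(n:ℚ)+1) = p by rw [hpc], show (2*(n:ℚ)+2) = p + 1 by rw [hpc]; ring]
      field_simp
      ring
    rw [e2]
    apply ppow_mem
    have hpZ : (p:ℚ) ∈ Z p := nat_mem p
    have h3m : (3:ℚ) ∈ Z p := by exact_mod_cast nat_mem (p := p) 3
    exact mul_mem (add_mem hz (add_mem (add_mem (pow_mem hpZ 2) (mul_mem h3m hpZ)) h3m))
      (pow_mem hi 3)
  | succ j ih =>
    have ih := ih (by omega)
    obtain ⟨κ, hκ⟩ : ∃ κ, n - 1 - j = κ + 1 := ⟨n - 1 - j - 1, by omega⟩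
    have hκ2 : n - 1 - (j+1) = κ := by omega
    rw [hκ] at ih
    rw [hκ2]
    have hw := w_succ (N := n-1) (κ := κ) (by omega)
    have hnc : (((n-1 : ℕ)):ℚ) = n - 1 := by
      rw [Nat.cast_sub (by omega)]; simp
    have hj2 : (j:ℚ) = n - 2 - κ := by
      have : j + 2 + κ = n := by omega
      have h2 : ((j + 2 + κ : ℕ) : ℚ) = n := by exact_mod_cast this
      push_cast at h2
      linarith
    have e1 : c (n+1+(j+1)) = c (n+1+j) * ((2*((n+1+j : ℕ):ℚ)+1)/(2*((n+1+j:ℕ):ℚ)+2))^3 := by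
      rw [← add_assoc, c_succ]
    -- numerators and denominators
    have hpc := p_cast hpn
    have hnum : (2*((n+1+j : ℕ):ℚ)+1) = 2*p - (2*κ+3) := by
      push_cast; rw [hj2, hpc]; ring
    have hden : (2*((n+1+j : ℕ):ℚ)+2) = 2*p - (2*κ+2) := by
      push_cast; rw [hj2, hpc]; ring
    have hui : ((2*((n+1+j : ℕ):ℚ)+2))⁻¹ ∈ Z p := by
      have h1 : ¬ p ∣ (2*(n+1+j)+2) := between_ndvd (by omega) (by omega)
      have := inv_mem h1
      push_cast at this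
      push_cast
      exact this
    have hd0 : (2*((n+1+j : ℕ):ℚ)+2) ≠ 0 := by positivity
    rw [e1, hnum, hden]
    rw [hden] at hui hd0
    have hki : ((2*(κ:ℚ)+2))⁻¹ ∈ Z p := inv2_mem hpn (by omega)
    have hk0 : (2*(κ:ℚ)+2) ≠ 0 := by positivity
    have hk1 : ((κ:ℚ)+1) ≠ 0 := by positivity
    have hwm : w (n-1) (κ+1) ∈ Z p := w_mem (by omega) (by omega)
    have hwκ : w (n-1) κ = w (n-1) (κ+1) * ((2*κ+3 - p) * (2*(κ:ℚ)+2)⁻¹)^3 := by
      have hn2 : (n:ℚ) = (p-1)/2 := by rw [hpc]; ring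
      rw [hnc, hn2] at hw
      have : w (n-1) κ = (- w (n-1) (κ+1) * ((p-1)/2-1-κ)^3) / (κ+1)^3 := by
        rw [← hw]; field_simp
      rw [this]
      field_simp
      ring
    rw [hwκ]
    -- difference of the two cubes
    have hpZ : (p:ℚ) ∈ Z p := nat_mem p
    have h2m : (2:ℚ) ∈ Z p := by exact_mod_cast nat_mem (p := p) 2
    have h3m : (3:ℚ) ∈ Z p := by exact_mod_cast nat_mem (p := p) 3
    have hκZ : (κ:ℚ) ∈ Z p := nat_mem κ
    have hm1 : (2*(p:ℚ) - (2*κ+3)) ∈ Z p :=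
      sub_mem (mul_mem h2m hpZ) (add_mem (mul_mem h2m hκZ) h3m)
    have hm2 : (2*(κ:ℚ)+3 - p) ∈ Z p :=
      sub_mem (add_mem (mul_mem h2m hκZ) h3m) hpZ
    have hf : ((2*(p:ℚ) - (2*κ+3)) * (2*(p:ℚ) - (2*κ+2))⁻¹) - ((2*κ+3 - p) * (2*(κ:ℚ)+2)⁻¹) ∈ J p 1 := by
      have e : ((2*(p:ℚ) - (2*κ+3)) * (2*(p:ℚ) - (2*κ+2))⁻¹) - ((2*κ+3 - p) * (2*(κ:ℚ)+2)⁻¹)
          = (p:ℚ)^1 * (((2*(p:ℚ) - (2*κ+2))⁻¹ * (2*(κ:ℚ)+2)⁻¹) * (2*(p:ℚ) - (2*κ+4))) :=
        frac_id (p:ℚ) κ _ rfl hd0 hk0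
      rw [e]
      apply ppow_mem
      have h4m : (4:ℚ) ∈ Z p := by exact_mod_cast nat_mem (p := p) 4
      exact mul_mem (mul_mem hui hki)
        (sub_mem (mul_mem h2m hpZ) (add_mem (mul_mem h2m hκZ) h4m))
    have hf3 := cong_pow3 hf (mul_mem hm1 hui) (mul_mem hm2 hki)
    have e3 : c (n+1+j) * ((2*(p:ℚ) - (2*κ+3))/(2*p - (2*κ+2)))^3
        + (p:ℚ)^3 * (w (n-1) (κ+1) * ((2*κ+3 - p) * (2*(κ:ℚ)+2)⁻¹)^3)
        = (c (n+1+j) + (p:ℚ)^3 * w (n-1) (κ+1)) * ((2*(p:ℚ) - (2*κ+3)) * (2*(p:ℚ) - (2*κ+2))⁻¹)^3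
          - w (n-1) (κ+1) * ((p:ℚ)^3 * (((2*(p:ℚ) - (2*κ+3)) * (2*(p:ℚ) - (2*κ+2))⁻¹)^3
            - ((2*κ+3 - p) * (2*(κ:ℚ)+2)⁻¹)^3)) := by
      rw [div_eq_mul_inv]; ring
    rw [e3]
    apply sub_mem (J_mul_Z (pow_mem (mul_mem hm1 hui) 3) ih)
    apply Z_mul_J hwm
    have := J_mul (m := 3) (k := 1) (x := (p:ℚ)^3) (by
      have := ppow_mem (p := p) 3 (one_mem (Z p))
      rwa [mul_one] at this) hf3
    exact this

lemma V_mem {N : ℕ} (hN : N < p) : V N ∈ Z p := by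
  unfold V
  apply sum_mem
  intro κ hκ
  have hκ := mem_range.1 hκ
  apply mul_mem (w_mem (by omega) hN)
  unfold U
  exact sum_mem (fun k _ => u_mem _ _)

/-- `p` divides `V (2m)` once `p ≤ 6 m + 1` -/
lemma V_div (h3 : 3 < p) (m : ℕ) (hm : 4*m+3 ≤ p) (hp6 : p ≤ 6*m+1) : V (2*m) ∈ J p 1 := by
  induction m with
  | zero =>
    have := hp.out.two_le
    omega
  | succ m ih =>
    have hrec := V_rec (N := 2*m) (even_two_mul m)
    have hden1 : ¬ p ∣ (3*m+4) := lt_ndvd (by omega) (by omega)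
    have hden2 : ¬ p ∣ (3*m+5) := lt_ndvd (by omega) (by omega)
    have hden3 : ¬ p ∣ (2*m+1) := lt_ndvd (by omega) (by omega)
    have h2 : ¬ p ∣ 2 := lt_ndvd (by omega) (by omega)
    have hden : ¬ p ∣ (2*(3*m+4))*(2*(3*m+5))*(2*m+1)^3 := by
      intro h
      rcases (hp.out.dvd_mul).1 h with h | h
      · rcases (hp.out.dvd_mul).1 h with h | h
        · rcases (hp.out.dvd_mul).1 h with h | h
          · exact h2 h
          · exact hden1 h
        · rcases (hp.out.dvd_mul).1 h with h | h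
          · exact h2 h
          · exact hden2 h
      · exact hden3 (hp.out.dvd_of_dvd_pow h)
    rw [show 2*(m+1) = 2*m+2 by ring]
    apply J_unit hden
    have e : (((2*(3*m+4))*(2*(3*m+5))*(2*m+1)^3 : ℕ) : ℚ) * V (2*m+2)
        = ((((6*m+5)*(6*m+7) : ℕ)) : ℚ) * (((2*m+2)^2*(2*m+3) : ℕ) : ℚ) * V (2*m) := by
      push_cast at hrec ⊢
      linear_combination hrec
    rw [e]
    by_cases hc : p ≤ 6*m+1
    · exact Z_mul_J (mul_mem (nat_mem _) (nat_mem _)) (ih (by omega) hc)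
    · -- then p = 6 m + 5 or p = 6 m + 7
      have hodd : ¬ 2 ∣ p := by
        intro h
        have := (Nat.prime_dvd_prime_iff_eq Nat.prime_two hp.out).1 h
        omega
      have hthree : ¬ 3 ∣ p := by
        intro h
        have := (Nat.prime_dvd_prime_iff_eq Nat.prime_three hp.out).1 h
        omega
      have hdv : p ∣ (6*m+5)*(6*m+7) := by
        have : p = 6*m+5 ∨ p = 6*m+7 := by omega
        rcases this with h | h
        · exact Dvd.dvd.mul_right (by rw [h]) _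
        · exact Dvd.dvd.mul_left (by rw [h]) _
      obtain ⟨e', he'⟩ := hdv
      rw [he', mul_assoc]
      push_cast
      have : (p:ℚ) * e' * ((2 * m + 2)^2 * (2*m+3) * V (2*m))
          = (p:ℚ)^1 * ((e':ℚ) * (((2*m+2)^2*(2*m+3) : ℕ) : ℚ) * V (2*m)) := by
        push_cast; ring
      rw [this]
      exact ppow_mem 1 (mul_mem (mul_mem (nat_mem _) (nat_mem _)) (V_mem (by omega)))

lemma Ssum_p (hpn : p = 2*n+1) (hn : Odd n) (h3 : 3 < p) : Ssum p ∈ J p 4 := by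
  have e0 := Ssum_one n
  rw [← hpn] at e0
  rw [e0]
  have h1 := sum_c hpn hn
  have h2 : (∑ a ∈ range (n+1), c a)^2 ∈ J p 4 := by
    rw [pow_two]; exact J_mul h1 h1
  apply add_mem h2
  have h2m : (2:ℚ) ∈ Z p := by exact_mod_cast nat_mem (p := p) 2
  apply Z_mul_J h2m
  have hnpos : 0 < n := hn.pos
  -- replace by `-p^3 V(n-1)`
  have hV : V (n-1) = ∑ κ ∈ range n, w (n-1) (n-1-κ) * U n (n-κ) := by
    unfold V
    rw [show n - 1 + 1 = n by omega, ← Finset.sum_range_reflect]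
    apply sum_congr rfl
    intro κ hκ
    have hκ := mem_range.1 hκ
    rw [show n - 1 - κ + 1 = n - κ by omega]
  have hcong : ∑ κ ∈ range n, c (n+1+κ) * ∑ j ∈ range (n-κ), c j
      - (-(p:ℚ)^3 * V (n-1)) ∈ J p 4 := by
    rw [hV, mul_sum, ← sum_sub_distrib]
    apply sum_mem
    intro κ hκ
    have hκ := mem_range.1 hκ
    have a1 := c_high hpn hn hκ
    have a2 : ∑ j ∈ range (n-κ), c j - U n (n-κ) ∈ J p 1 := by
      unfold U
      rw [← sum_sub_distrib]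
      exact sum_mem (fun j hj => c_cong_u hpn (by have := mem_range.1 hj; omega))
    have e : c (n+1+κ) * ∑ j ∈ range (n-κ), c j
        - -(p:ℚ)^3 * (w (n-1) (n-1-κ) * U n (n-κ))
        = (c (n+1+κ) + (p:ℚ)^3 * w (n-1) (n-1-κ)) * ∑ j ∈ range (n-κ), c j
          - ((p:ℚ)^3 * w (n-1) (n-1-κ)) * (∑ j ∈ range (n-κ), c j - U n (n-κ)) := by ring
    rw [e]
    apply sub_mem
    · exact J_mul_Z (sum_mem (fun j _ => c_mem hpn j)) a1
    · exact J_mul (m := 3) (k := 1) (ppow_mem 3 (w_mem (by omega) (by omega))) a2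
  apply J_iff_of_cong hcong
  rw [neg_mul]
  apply neg_mem
  obtain ⟨m, hm⟩ := hn
  have hVJ : V (n-1) ∈ J p 1 := by
    rw [show n - 1 = 2*m by omega]
    exact V_div h3 m (by omega) (by omega)
  have := J_mul (m := 3) (k := 1) (x := (p:ℚ)^3) (by
      have := ppow_mem (p := p) 3 (one_mem (Z p))
      rwa [mul_one] at this) hVJ
  exact this

theorem Ssum_all (h4 : p % 4 = 3) (h3 : 3 < p) {r : ℕ} (hr : 1 ≤ r) :
    Ssum (p^r) ∈ J p 4 := by
  have hpn : p = 2*((p-1)/2)+1 := by omega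
  have hn : Odd ((p-1)/2) := ⟨(p-3)/4, by omega⟩
  obtain ⟨s, rfl⟩ : ∃ s, r = s + 1 := ⟨r - 1, by omega⟩
  rcases Nat.eq_zero_or_pos s with rfl | hs
  · rw [zero_add, pow_one]
    exact Ssum_p hpn hn h3
  · exact Ssum_ge_two hpn hn h3 hs

/-- the triangle of indices -/
lemma triangle (N : ℕ) (F : ℕ → ℕ → ℚ) :
    ∑ k ∈ range N, ∑ j ∈ range (k+1), F j (k - j)
      = ∑ i ∈ range N, ∑ j ∈ range N, if i + j < N then F i j else 0 := by
  have h1 : ∑ k ∈ range N, ∑ j ∈ range (k+1), F j (k - j)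
      = ∑ j ∈ range N, ∑ k ∈ Ico j N, F j (k - j) := by
    apply Finset.sum_comm'
    intro k j
    simp only [mem_range, mem_Ico]
    omega
  rw [h1]
  apply sum_congr rfl
  intro i hi
  have hi := mem_range.1 hi
  rw [sum_Ico_eq_sum_range, ← sum_filter]
  have h2 : (range N).filter (fun j => i + j < N) = range (N - i) := by
    ext j
    simp only [mem_filter, mem_range]
    omega
  rw [h2]
  apply sum_congr rfl
  intro j _
  rw [Nat.add_sub_cancel_left]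

end Pool.Agent.V11304.SC
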