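import Pool.Agent.V11304.SC.Basic
import Pool.Agent.V11304.SC.Cert

/-!
# The sequence `c i = C(2i,i)^3 / 64^i` modulo powers of `p`
-/

namespace Pool.Agent.V11304.SC

open Finset

noncomputable def c (i : ℕ) : ℚ := (Nat.centralBinom i : ℚ)^3 / 64^i

lemma c_zero : c 0 = 1 := by simp [c]

lemma c_succ (i : ℕ) : c (i+1) = c i * ((2*(i:ℚ)+1)/(2*i+2))^3 := by
  have h := centralBinom_rec i
  have hi : ((i:ℚ)+1) ≠ 0 := by positivity
  have hi2 : (2*(i:ℚ)+2) ≠ 0 := by positivity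
  have h' : (Nat.centralBinom (i+1) : ℚ) = 2 * (2*i+1) * Nat.centralBinom i / (i+1) := by
    field_simp; linarith
  unfold c
  rw [h', pow_succ 64]
  field_simp
  ring

/-- the factor `(2x+2t+1)/(2x+2t+2)` -/
noncomputable def g (x : ℚ) (t : ℕ) : ℚ := (2*x+2*t+1)/(2*x+2*t+2)

noncomputable def rho (x : ℚ) (a : ℕ) : ℚ := ∏ t ∈ range a, (g x t)^3

lemma rho_succ (x : ℚ) (a : ℕ) : rho x (a+1) = rho x a * (g x a)^3 := by
  unfold rho; rw [prod_range_succ]

lemma rho_zero (x : ℚ) : rho x 0 = 1 := by simp [rho]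

lemma c_add (i a : ℕ) : c (i+a) = c i * rho i a := by
  induction a with
  | zero => simp [rho]
  | succ a ih =>
    rw [← add_assoc, c_succ, ih, rho_succ]
    unfold g
    push_cast
    ring_nf

lemma c_eq_rho (a : ℕ) : c a = rho 0 a := by
  have := c_add 0 a
  rw [zero_add, c_zero, one_mul] at this
  simpa using this

variable {p n : ℕ} [hp : Fact p.Prime]

lemma two_ndvd (hpn : p = 2*n+1) : ¬ p ∣ 2 := by
  intro h
  have := Nat.le_of_dvd (by norm_num) h
  have h2 := hp.out.two_le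
  omega

lemma lt_ndvd {b : ℕ} (h0 : 0 < b) (h : b < p) : ¬ p ∣ b := by
  intro hd
  have := Nat.le_of_dvd h0 hd
  omega

lemma between_ndvd {b : ℕ} (h0 : p < b) (h : b < 2*p) : ¬ p ∣ b := by
  rintro ⟨e, he⟩
  subst he
  have hp0 := hp.out.pos
  have h1 : 1 < e := by
    by_contra hc
    have : e ≤ 1 := by omega
    have : p * e ≤ p * 1 := Nat.mul_le_mul_left p this
    omega
  have h2 : e < 2 := by
    by_contra hc
    have : 2 ≤ e := by omega
    have : p * 2 ≤ p * e := Nat.mul_le_mul_left p this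
    omega
  omega

/-- `p b + r` is a unit when `r` is -/
lemma add_ndvd {b r : ℕ} (h : ¬ p ∣ r) : ¬ p ∣ p * b + r := by
  rwa [Nat.dvd_add_right (Dvd.intro b rfl)]

lemma c_mem (hpn : p = 2*n+1) (i : ℕ) : c i ∈ Z p := by
  unfold c
  rw [div_eq_mul_inv]
  apply mul_mem (pow_mem (nat_mem _) 3)
  have h64 : ¬ p ∣ 64^i := by
    intro h
    have h1 : p ∣ 64 := hp.out.dvd_of_dvd_pow h
    have h2 : p ∣ 2^6 := by norm_num; exact h1
    exact two_ndvd hpn (hp.out.dvd_of_dvd_pow h2)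
  have := inv_mem h64
  push_cast at this
  exact this

/-! ### Congruences modulo `p` and `p^2` -/

lemma t_succ (n a : ℕ) :
    t n (a+1) = t n a * (-((n:ℚ)-a)*(n+a+1)*(2*a+1)/(2*(a+1)^3)) := by
  have a1 := choose_right n a
  have a2 : ((n+(a+1)).choose (a+1) : ℚ) * (a+1) = ((n+a).choose a : ℚ) * (n+a+1) := by
    have := choose_up (n+a) a
    push_cast at this
    exact this
  have a3 := centralBinom_rec a
  have ha : ((a:ℚ)+1) ≠ 0 := by positivity
  have A1 : (n.choose (a+1) : ℚ) = (n.choose a : ℚ) * (n-a)/(a+1) := by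
    field_simp; linarith
  have A2 : ((n+(a+1)).choose (a+1) : ℚ) = ((n+a).choose a : ℚ) * (n+a+1)/(a+1) := by
    field_simp; linarith
  have A3 : (Nat.centralBinom (a+1) : ℚ) = 2 * (2*a+1) * Nat.centralBinom a / (a+1) := by
    field_simp; linarith
  unfold t
  rw [A1, A2, A3, pow_succ]
  field_simp
  ring

lemma u_succ (n a : ℕ) : u n (a+1) = u n a * (-(((n:ℚ)-a)/(a+1))^3) := by
  have a1 := choose_right n a
  have ha : ((a:ℚ)+1) ≠ 0 := by positivity
  have A1 : (n.choose (a+1) : ℚ) = (n.choose a : ℚ) * (n-a)/(a+1) := by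
    field_simp; linarith
  unfold u
  rw [A1, pow_succ]
  field_simp

lemma t_mem (hpn : p = 2*n+1) (m a : ℕ) : t m a ∈ Z p := by
  unfold t
  have h4 : ((-1/4 : ℚ)) ∈ Z p := by
    have h : ¬ p ∣ 4 := by
      intro h
      have h2 : p ∣ 2^2 := by norm_num; exact h
      exact two_ndvd hpn (hp.out.dvd_of_dvd_pow h2)
    have := inv_mem h
    push_cast at this
    have e : (-1/4 : ℚ) = - (4:ℚ)⁻¹ := by norm_num
    rw [e]
    exact neg_mem this
  exact mul_mem (mul_mem (mul_mem (nat_mem _) (nat_mem _)) (nat_mem _)) (pow_mem h4 _)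

lemma u_mem (m a : ℕ) : u m a ∈ Z p := by
  unfold u
  exact mul_mem (pow_mem (neg_mem (one_mem _)) _) (pow_mem (nat_mem _) _)

/-- inverse of `2 a + 2` -/
lemma inv2_mem (hpn : p = 2*n+1) {a : ℕ} (ha : a < n) : ((2*(a:ℚ)+2))⁻¹ ∈ Z p := by
  have h : ¬ p ∣ (2*a+2) := lt_ndvd (by omega) (by omega)
  have := inv_mem h
  push_cast at this
  exact this

lemma inv1_mem (hpn : p = 2*n+1) {a : ℕ} (ha : a < n) : ((2*(a:ℚ)+1))⁻¹ ∈ Z p := by
  have h : ¬ p ∣ (2*a+1) := lt_ndvd (by omega) (by omega)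
  have := inv_mem h
  push_cast at this
  exact this

lemma p_cast (hpn : p = 2*n+1) : (p:ℚ) = 2*n+1 := by rw [hpn]; push_cast; ring

lemma c_cong_t (hpn : p = 2*n+1) {a : ℕ} (ha : a ≤ n) : c a - t n a ∈ J p 2 := by
  induction a with
  | zero =>
    have : c 0 - t n 0 = 0 := by simp [c, t]
    rw [this]; exact zero_mem _
  | succ a ih =>
    have ih := ih (by omega)
    have hpc := p_cast hpn
    have hi := inv2_mem hpn (a := a) (by omega)
    have ha2 : (2*(a:ℚ)+2) ≠ 0 := by positivity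
    have ha1 : ((a:ℚ)+1) ≠ 0 := by positivity
    have e : c (a+1) - t n (a+1)
        = ((2*(a:ℚ)+1)^3 * ((2*(a:ℚ)+2)⁻¹)^3) * (c a - t n a)
          + (p:ℚ)^2 * (t n a * (2*a+1) * ((2*(a:ℚ)+2)⁻¹)^3) := by
      rw [c_succ, t_succ, hpc]
      field_simp
      ring
    rw [e]
    have h1 : (2*(a:ℚ)+1) ∈ Z p := by
      have := nat_mem (p := p) (2*a+1)
      push_cast at this; exact this
    apply add_mem
    · exact Z_mul_J (mul_mem (pow_mem h1 3) (pow_mem hi 3)) ih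
    · exact ppow_mem 2 (mul_mem (mul_mem (t_mem hpn _ _) h1) (pow_mem hi 3))

noncomputable def O (a : ℕ) : ℚ := ∑ k ∈ range a, ((2*(k:ℚ)+1))⁻¹

noncomputable def H (a : ℕ) : ℚ := ∑ k ∈ range a, ((k:ℚ)+1)⁻¹

lemma O_succ (a : ℕ) : O (a+1) = O a + ((2*(a:ℚ)+1))⁻¹ := by unfold O; rw [sum_range_succ]
lemma H_succ (a : ℕ) : H (a+1) = H a + ((a:ℚ)+1)⁻¹ := by unfold H; rw [sum_range_succ]

lemma O_mem (hpn : p = 2*n+1) {a : ℕ} (ha : a ≤ n) : O a ∈ Z p := by
  unfold O
  apply sum_mem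
  intro k hk
  exact inv1_mem hpn (by have := mem_range.1 hk; omega)

lemma H_mem (hpn : p = 2*n+1) {a : ℕ} (ha : a ≤ n) : H a ∈ Z p := by
  unfold H
  apply sum_mem
  intro k hk
  have hk := mem_range.1 hk
  have h : ¬ p ∣ (k+1) := lt_ndvd (by omega) (by omega)
  have := inv_mem h
  push_cast at this
  exact this

lemma nat21_mem (a : ℕ) : (2*(a:ℚ)+1) ∈ Z p := by
  have := nat_mem (p := p) (2*a+1)
  push_cast at this; exact this

lemma u_cong_c (hpn : p = 2*n+1) {a : ℕ} (ha : a ≤ n) :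
    u n a - c a * (1 - 3 * p * O a) ∈ J p 2 := by
  induction a with
  | zero =>
    have : u n 0 - c 0 * (1 - 3 * p * O 0) = 0 := by simp [c, u, O]
    rw [this]; exact zero_mem _
  | succ a ih =>
    have ih := ih (by omega)
    have hpc := p_cast hpn
    have hi := inv2_mem hpn (a := a) (by omega)
    have ha2 : (2*(a:ℚ)+2) ≠ 0 := by positivity
    have ha3 : (2*(a:ℚ)+1) ≠ 0 := by positivity
    have ha1 : ((a:ℚ)+1) ≠ 0 := by positivity
    have h1 : (2*(a:ℚ)+1) ∈ Z p := nat21_mem a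
    have hO := O_mem hpn (a := a) (by omega)
    have hc := c_mem (p := p) hpn a
    have hpZ : (p:ℚ) ∈ Z p := nat_mem p
    have e : u n (a+1) - c (a+1) * (1 - 3 * p * O (a+1))
        = ((2*(a:ℚ)+1 - p)^3 * ((2*(a:ℚ)+2)⁻¹)^3) * (u n a - c a * (1 - 3 * p * O a))
          + (p:ℚ)^2 * (c a * ((2*(a:ℚ)+2)⁻¹)^3 * ((3*(2*a+1) - p)
            + 3 * O a * (3 * (2*a+1)^2 - 3 * p * (2*a+1) + p^2))) := by
      rw [c_succ, u_succ, O_succ]
      have hn : (n:ℚ) = (p-1)/2 := by rw [hpc]; ring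
      rw [hn]
      field_simp
      ring
    rw [e]
    have h3 : (3:ℚ) ∈ Z p := by exact_mod_cast nat_mem (p := p) 3
    apply add_mem
    · exact Z_mul_J (mul_mem (pow_mem (sub_mem h1 hpZ) 3) (pow_mem hi 3)) ih
    · apply ppow_mem 2
      apply mul_mem (mul_mem hc (pow_mem hi 3))
      apply add_mem
      · exact sub_mem (mul_mem h3 h1) hpZ
      · apply mul_mem (mul_mem h3 hO)
        exact add_mem (sub_mem (mul_mem h3 (pow_mem h1 2)) (mul_mem (mul_mem h3 hpZ) h1))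
          (pow_mem hpZ 2)

lemma c_cong_u (hpn : p = 2*n+1) {a : ℕ} (ha : a ≤ n) : c a - u n a ∈ J p 1 := by
  have h := J_anti (by norm_num : 1 ≤ 2) (u_cong_c hpn ha)
  have e : c a - u n a = - (u n a - c a * (1 - 3 * p * O a)) + (p:ℚ)^1 * (c a * 3 * O a) := by
    ring
  rw [e]
  have h3 : (3:ℚ) ∈ Z p := by exact_mod_cast nat_mem (p := p) 3
  exact add_mem (neg_mem h) (ppow_mem 1 (mul_mem (mul_mem (c_mem hpn a) h3) (O_mem hpn ha)))

/-! ### The sums over one block -/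

lemma sum_c (hpn : p = 2*n+1) (hn : Odd n) : ∑ a ∈ range (n+1), c a ∈ J p 2 := by
  obtain ⟨m, hm⟩ := hn
  have h0 := tsum_odd m
  rw [show 2*m+2 = n+1 by omega, ← hm] at h0
  have e : ∑ a ∈ range (n+1), c a = ∑ a ∈ range (n+1), (c a - t n a) := by
    rw [sum_sub_distrib, h0, sub_zero]
  rw [e]
  exact sum_mem (fun a ha => c_cong_t hpn (by have := mem_range.1 ha; omega))

lemma sum_u (hn : Odd n) : ∑ a ∈ range (n+1), u n a = 0 := U_full hn

lemma three_ndvd (h3 : 3 < p) : ¬ p ∣ 3 := by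
  intro h
  have := Nat.le_of_dvd (by norm_num) h
  omega

lemma sum_cO (hpn : p = 2*n+1) (hn : Odd n) (h3 : 3 < p) :
    ∑ a ∈ range (n+1), c a * O a ∈ J p 1 := by
  have h1 : ∑ a ∈ range (n+1), (u n a - c a * (1 - 3 * p * O a)) ∈ J p 2 :=
    sum_mem (fun a ha => u_cong_c hpn (by have := mem_range.1 ha; omega))
  have h2 := sum_c hpn hn
  have e : ∑ a ∈ range (n+1), (u n a - c a * (1 - 3 * p * O a))
      = - ∑ a ∈ range (n+1), c a + (p:ℚ)^1 * ((3:ℕ) * ∑ a ∈ range (n+1), c a * O a) := by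
    rw [sum_sub_distrib, sum_u hn, mul_sum, mul_sum, zero_sub, ← sum_neg_distrib,
      ← sum_neg_distrib, ← sum_add_distrib]
    apply sum_congr rfl
    intro a _
    push_cast
    ring
  have h4 : (p:ℚ)^1 * ((3:ℕ) * ∑ a ∈ range (n+1), c a * O a) ∈ J p (1+1) := by
    have e2 : (p:ℚ)^1 * ((3:ℕ) * ∑ a ∈ range (n+1), c a * O a)
      = ∑ a ∈ range (n+1), (u n a - c a * (1 - 3 * p * O a)) + ∑ a ∈ range (n+1), c a := by
      rw [e]; ring
    rw [e2]
    exact add_mem h1 h2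
  exact J_unit (three_ndvd h3) (J_cancel h4)

/-- `H a ≡ 2 O (n-a) + H n` modulo `p` -/
lemma H_cong (hpn : p = 2*n+1) {j : ℕ} (hj : j ≤ n) :
    H (n - j) - (2 * O j + H n) ∈ J p 1 := by
  induction j with
  | zero =>
    have : H (n - 0) - (2 * O 0 + H n) = 0 := by simp [O]
    rw [this]; exact zero_mem _
  | succ j ih =>
    have ih := ih (by omega)
    obtain ⟨r, hr⟩ : ∃ r, n - j = r + 1 := ⟨n - j - 1, by omega⟩
    have hr2 : n - (j+1) = r := by omega
    rw [hr, H_succ] at ih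
    rw [hr2, O_succ]
    have hn : n = r + 1 + j := by omega
    have hpc : (p:ℚ) = 2*(r:ℚ)+2+2*j+1 := by
      rw [hpn, hn]; push_cast; ring
    have h1 := inv1_mem hpn (a := j) (by omega)
    have h2 : ((r:ℚ)+1)⁻¹ ∈ Z p := by
      have h : ¬ p ∣ (r+1) := lt_ndvd (by omega) (by omega)
      have := inv_mem h
      push_cast at this
      exact this
    have hr1 : ((r:ℚ)+1) ≠ 0 := by positivity
    have hj1 : (2*(j:ℚ)+1) ≠ 0 := by positivity
    have e : H r - (2 * (O j + (2*(j:ℚ)+1)⁻¹) + H n)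
        = (H r + ((r:ℚ)+1)⁻¹ - (2 * O j + H n)) - (p:ℚ)^1 * (((r:ℚ)+1)⁻¹ * (2*(j:ℚ)+1)⁻¹) := by
      rw [hpc]
      field_simp
      ring
    rw [e]
    exact sub_mem ih (ppow_mem 1 (mul_mem h2 h1))

lemma sum_cH (hpn : p = 2*n+1) (hn : Odd n) (h3 : 3 < p) :
    ∑ a ∈ range (n+1), c a * H a ∈ J p 1 := by
  -- replace `c` by `u` and `H a` by `2 O (n-a) + H n`
  have h1 : ∑ a ∈ range (n+1), c a * H a - ∑ a ∈ range (n+1), u n a * (2 * O (n-a) + H n)
      ∈ J p 1 := by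
    rw [← sum_sub_distrib]
    apply sum_mem
    intro a ha
    have ha : a ≤ n := by have := mem_range.1 ha; omega
    have hH := H_cong hpn (j := n - a) (by omega)
    rw [show n - (n - a) = a by omega] at hH
    have h2m : (2:ℚ) ∈ Z p := by exact_mod_cast nat_mem (p := p) 2
    exact cong_mul (c_cong_u hpn ha) hH (c_mem hpn a)
      (add_mem (mul_mem h2m (O_mem hpn (by omega))) (H_mem hpn le_rfl))
  apply J_iff_of_cong h1
  have e : ∑ a ∈ range (n+1), u n a * (2 * O (n-a) + H n)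
      = - 2 * ∑ a ∈ range (n+1), u n a * O a := by
    have e1 : ∑ a ∈ range (n+1), u n a * (2 * O (n-a) + H n)
      = 2 * ∑ a ∈ range (n+1), u n a * O (n-a) + H n * ∑ a ∈ range (n+1), u n a := by
      rw [mul_sum, mul_sum, ← sum_add_distrib]
      apply sum_congr rfl
      intro a _
      ring
    have e2 : ∑ a ∈ range (n+1), u n a * O (n-a) = - ∑ a ∈ range (n+1), u n a * O a := by
      rw [← Finset.sum_range_reflect, ← sum_neg_distrib]
      apply sum_congr rfl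
      intro a ha
      have ha : a ≤ n := by have := mem_range.1 ha; omega
      rw [show n + 1 - 1 - a = n - a by omega, u_reflect hn ha,
        show n - (n - a) = a by omega]
      ring
    rw [e1, e2, sum_u hn]; ring
  rw [e]
  have h5 : ∑ a ∈ range (n+1), u n a * O a ∈ J p 1 := by
    have h6 : ∑ a ∈ range (n+1), u n a * O a - ∑ a ∈ range (n+1), c a * O a ∈ J p 1 := by
      rw [← sum_sub_distrib]
      apply sum_mem
      intro a ha
      have ha : a ≤ n := by have := mem_range.1 ha; omega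
      have e3 : u n a * O a - c a * O a = (-(c a - u n a)) * O a := by ring
      rw [e3]
      exact J_mul_Z (O_mem hpn ha) (neg_mem (c_cong_u hpn ha))
    exact J_iff_of_cong h6 (sum_cO hpn hn h3)
  have h2m : (-2:ℚ) ∈ Z p := by exact_mod_cast int_mem (p := p) (-2)
  exact Z_mul_J h2m h5

noncomputable def L (a : ℕ) : ℚ := ∑ k ∈ range a, (((2*(k:ℚ)+1))⁻¹ - ((2*(k:ℚ)+2))⁻¹)

lemma L_eq (a : ℕ) : L a = O a - H a / 2 := by
  unfold L O H
  rw [sum_div, ← sum_sub_distrib]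
  apply sum_congr rfl
  intro k _
  have h1 : ((k:ℚ)+1) ≠ 0 := by positivity
  have h2 : (2*(k:ℚ)+2) ≠ 0 := by positivity
  field_simp

lemma sum_cL (hpn : p = 2*n+1) (hn : Odd n) (h3 : 3 < p) :
    ∑ a ∈ range (n+1), c a * L a ∈ J p 1 := by
  have e : ∑ a ∈ range (n+1), c a * L a
      = ∑ a ∈ range (n+1), c a * O a - (2:ℚ)⁻¹ * ∑ a ∈ range (n+1), c a * H a := by
    rw [mul_sum, ← sum_sub_distrib]
    apply sum_congr rfl
    intro a _
    rw [L_eq]; ring
  rw [e]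
  have h2 : ((2:ℚ))⁻¹ ∈ Z p := by exact_mod_cast inv_mem (two_ndvd hpn)
  exact sub_mem (sum_cO hpn hn h3) (Z_mul_J h2 (sum_cH hpn hn h3))

end Pool.Agent.V11304.SC
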